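import Pool.Agent.H679R2.Mix.Defs

/-!
# Reconfiguration of small constraint satisfaction problems

A constraint satisfaction problem with values `0, 1, 2` (or `0, 1`) and forbidden pairs.
A formula in conjunctive normal form together with `2 n` designated variables defines a relation
`RelE` on bit strings of length `n`; `cspOf` is the constraint satisfaction problem that walks
along this relation.
-/

namespace Pool.Agent.NPC.Mix

/-- Constraint satisfaction problems: the value of a variable `x` is `0` or `1` if `two x`, and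
`0`, `1` or `2` otherwise; an element `((x, a), (y, b))` of `wires` forbids `x = a` and `y = b`. -/
structure Csp (X : Type) where
  two : X → Bool
  wires : List ((X × ℕ) × (X × ℕ))
  z : X

namespace Csp

variable {X : Type} (I : Csp X)

/-- solutions -/
def Sol (f : X → ℕ) : Prop :=
  (∀ x, f x ≤ 2) ∧ (∀ x, I.two x = true → f x ≤ 1) ∧
    ∀ w ∈ I.wires, ¬ (f w.1.1 = w.1.2 ∧ f w.2.1 = w.2.2)

/-- one step: the value of one variable is changed -/
def Step (f g : X → ℕ) : Prop :=
  I.Sol f ∧ I.Sol g ∧ ∃ x, ∀ y, y ≠ x → g y = f y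

/-- Every solution reaches one with `z = 1`. -/
def Good : Prop := ∀ f, I.Sol f → ∃ g, Relation.ReflTransGen I.Step f g ∧ g I.z = 1

end Csp

/-- The relation on bit strings of length `n` defined by the formula `φ` with the designated
variables `X 0, ..., X (2n-1)`. -/
def RelE {V : Type} (φ : List (List (Bool × V))) (X : ℕ → V) (n : ℕ) (v w : ℕ → Bool) : Prop :=
  ∃ τ : V → Bool, (∀ c ∈ φ, ∃ l ∈ c, τ l.2 = l.1) ∧ (∀ i < n, τ (X i) = v i) ∧
    ∀ i < n, τ (X (n + i)) = w i

/-- variables of `cspOf` -/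
abbrev XL (V : Type) : Type := V ⊕ (ℕ × ℕ × ℕ)

section

variable {V : Type}

def vz : XL V := Sum.inr (0, 0, 0)
def vhP : XL V := Sum.inr (0, 1, 0)
def vhQ : XL V := Sum.inr (0, 2, 0)
def vβ : XL V := Sum.inr (0, 3, 0)
def vP (i : ℕ) : XL V := Sum.inr (1, i, 0)
def vQ (i : ℕ) : XL V := Sum.inr (2, i, 0)
def vc (i j : ℕ) : XL V := Sum.inr (3, i, j)

/-- which variables have only two values -/
def twoX : XL V → Bool
  | Sum.inl _ => true
  | Sum.inr (a, b, c) => decide ((a = 0 ∧ b ≠ 3) ∨ (a = 3 ∧ c = 0))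

/-- forbidden pairs of clause number `i` -/
def clauseWires (i : ℕ) (c : List (Bool × V)) : List ((XL V × ℕ) × (XL V × ℕ)) :=
  c.zipIdx.flatMap (fun p =>
    [((vc i p.2, 0), (Sum.inl p.1.2, if p.1.1 then 0 else 1)),
     ((vc i p.2, 1), if p.2 + 1 < c.length then (vc i (p.2 + 1), 2) else (vβ, 0))])

/-- holding a register -/
def holdWires (X : ℕ → V) (reg : ℕ → XL V) (h : XL V) (off n : ℕ) :
    List ((XL V × ℕ) × (XL V × ℕ)) :=
  (List.range n).flatMap (fun i =>
    [((reg i, 0), (Sum.inl (X (off + i)), 1)), ((reg i, 1), (Sum.inl (X (off + i)), 0)),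
     ((reg i, 2), (h, 1))])

/-- The constraint satisfaction problem of the relation. -/
def cspOf (φ : List (List (Bool × V))) (X : ℕ → V) (n : ℕ) : Csp (XL V) where
  two := twoX
  wires := [((vhP, 0), (vhQ, 0)), ((vβ, 1), (vhP, 1)), ((vβ, 2), (vhQ, 1)),
      ((vz, 1), (Sum.inl (X 0), 0)), ((vz, 1), (vhP, 0))] ++
    (holdWires X vP vhP 0 n ++ (holdWires X vQ vhQ n n ++
      φ.zipIdx.flatMap (fun p => clauseWires p.2 p.1)))
  z := vz

end

/-- Numeric instances: the list says for each of the variables `0, 1, ...` whether it has only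
two values; then come the forbidden pairs. -/
abbrev NC : Type := List Bool × List ((ℕ × ℕ) × (ℕ × ℕ))

/-- the constraint satisfaction problem of a numeric instance; `z` is variable number `0` -/
def NC.csp (I : NC) : Csp ℕ where
  two i := I.1.getD i true
  wires := I.2
  z := 0

/-- well-formed numeric instances -/
def NC.Ok (I : NC) : Prop :=
  I.1[0]? = some true ∧ ∀ w ∈ I.2, w.1.1 < I.1.length ∧ w.2.1 < I.1.length ∧ w.1.1 ≠ w.2.1 ∧
    w.1.2 ≤ 2 ∧ w.2.2 ≤ 2

end Pool.Agent.NPC.Mix
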