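import Pool.Agent.H679R2.Mix.Defs

/-!
# Recolouring for a relation
-/

namespace Pool.Agent.NPC.Mix

variable {Λ K : Type*}

/-- proper colourings of a relation -/
def Prp (adj : Λ → Λ → Prop) (φ : Λ → K) : Prop := ∀ a b, adj a b → φ a ≠ φ b

/-- one recolouring step (at most one vertex changes) -/
def Rc (adj : Λ → Λ → Prop) (φ ψ : Λ → K) : Prop :=
  Prp adj φ ∧ Prp adj ψ ∧ ∃ v, ∀ u, u ≠ v → ψ u = φ u

/-- reachability -/
def Rch (adj : Λ → Λ → Prop) (φ ψ : Λ → K) : Prop := Relation.ReflTransGen (Rc adj) φ ψ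

/-- frozen vertices: every other colour appears on a neighbour -/
def Frz (adj : Λ → Λ → Prop) (φ : Λ → K) (v : Λ) : Prop := ∀ c, c ≠ φ v → ∃ u, adj v u ∧ φ u = c

/-- the relation with `w` deleted and `b` merged into `a` -/
def Mrg (adj : Λ → Λ → Prop) (w a b u v : Λ) : Prop :=
  u ≠ w ∧ u ≠ b ∧ v ≠ w ∧ v ≠ b ∧ (adj u v ∨ (u = a ∧ adj b v) ∨ (v = a ∧ adj u b))

/-- standard colouring -/
def stdc {V : Type*} (side : V → Bool) : V → Fin 4 := fun v => if side v = true then 0 else 1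

end Pool.Agent.NPC.Mix
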