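import Pool.Agent.H679R2.Mix.Wires

/-!
# Decoding of colourings, frozen chain, moves of configurations
-/

namespace Pool.Agent.NPC.Mix

variable {I : NC}

/-- The chain is coloured by the identity. -/
def ChainId (I : NC) (φ : Lb → Fin 4) : Prop := ∀ t < nT I, ∀ i < 4, φ (Sum.inl (t, i)) = q4 i

theorem lst_of_chainId {φ : Lb → Fin 4} (hφ : Prp (adj I) φ) (hc : ChainId I φ)
    {u : ℕ ⊕ (ℕ × ℕ)} (hu : (Sum.inr u : Lb) ∈ verts I) : lst I u (φ (Sum.inr u)).val = true := by
  by_contra h
  rw [Bool.not_eq_true] at h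
  have h1 := adj_slot hu (φ (Sum.inr u)).isLt h
  have h2 := slot_lt hu (φ (Sum.inr u)).isLt
  have h3 := hφ _ _ h1
  rw [hc _ (by omega) _ (φ (Sum.inr u)).isLt, q4_of_val] at h3
  exact h3 rfl

theorem path_decode {a b : ℕ} (ha : a ≤ 2) (hb : b ≤ 2) (c : ℕ → ℕ)
    (h : ∀ j < 5, c j = lv a b j ∨ c j = rv a b j) (hc : ∀ j < 4, c j ≠ c (j + 1)) :
    ∃ i ≤ 5, (∀ j < 5, c j = if j < i then lv a b j else rv a b j) ∧
      (c 0 ≠ a → i = 0) ∧ (c 4 ≠ b → i = 5) := by
  have e : ∀ j < 4, rv a b j = lv a b (j + 1) := by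
    intro j hj
    interval_cases j <;> simp [lv, rv]
  have ne : ∀ j < 5, lv a b j ≠ rv a b j := by
    intro j hj
    have g1 := gam_le (a := a) hb
    have g2 := del_le (b := b) ha
    have g5 := gam_ne_del (a := a) (b := b)
    interval_cases j <;> simp only [lv, rv] <;> norm_num <;> omega
  have dn : ∀ j < 4, c (j + 1) = lv a b (j + 1) → c j = lv a b j := by
    intro j hj h1
    rcases h j (by omega) with h2 | h2
    · exact h2
    · exact absurd (by rw [h2, h1, e j hj]) (hc j hj)
  by_cases h4 : c 4 = lv a b 4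
  · have h3 := dn 3 (by omega) h4
    have h2 := dn 2 (by omega) h3
    have h1 := dn 1 (by omega) h2
    have h0 := dn 0 (by omega) h1
    refine ⟨5, le_rfl, ?_, ?_, fun _ => rfl⟩
    · intro j hj
      rw [if_pos hj]
      interval_cases j <;> assumption
    · intro h5
      exact absurd (by simpa [lv] using h0) h5
  · have h4' : c 4 = rv a b 4 := (h 4 (by omega)).resolve_left h4
    have h4b : c 4 = b := by simpa [rv] using h4'
    by_cases h3 : c 3 = lv a b 3
    · have h2 := dn 2 (by omega) h3
      have h1 := dn 1 (by omega) h2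
      have h0 := dn 0 (by omega) h1
      refine ⟨4, by omega, ?_, fun h5 => absurd (by simpa [lv] using h0) h5,
        fun h5 => absurd h4b h5⟩
      intro j hj
      split_ifs with h6
      · interval_cases j <;> assumption
      · have : j = 4 := by omega
        rw [this]
        exact h4'
    · have h3' := (h 3 (by omega)).resolve_left h3
      by_cases h2 : c 2 = lv a b 2
      · have h1 := dn 1 (by omega) h2
        have h0 := dn 0 (by omega) h1
        refine ⟨3, by omega, ?_, fun h5 => absurd (by simpa [lv] using h0) h5,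
          fun h5 => absurd h4b h5⟩
        intro j hj
        split_ifs with h6
        · interval_cases j <;> assumption
        · interval_cases j <;> assumption
      · have h2' := (h 2 (by omega)).resolve_left h2
        by_cases h1 : c 1 = lv a b 1
        · have h0 := dn 0 (by omega) h1
          refine ⟨2, by omega, ?_, fun h5 => absurd (by simpa [lv] using h0) h5,
            fun h5 => absurd h4b h5⟩
          intro j hj
          split_ifs with h6
          · interval_cases j <;> assumption
          · interval_cases j <;> assumption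
        · have h1' := (h 1 (by omega)).resolve_left h1
          by_cases h0 : c 0 = lv a b 0
          · refine ⟨1, by omega, ?_, fun h5 => absurd (by simpa [lv] using h0) h5,
              fun h5 => absurd h4b h5⟩
            intro j hj
            split_ifs with h6
            · interval_cases j <;> assumption
            · interval_cases j <;> assumption
          · have h0' := (h 0 (by omega)).resolve_left h0
            refine ⟨0, by omega, ?_, fun _ => rfl, fun h5 => absurd h4b h5⟩
            intro j hj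
            rw [if_neg (by omega)]
            interval_cases j <;> assumption

/-- Every colouring whose chain is coloured by the identity comes from a configuration. -/
theorem decode (hok : I.Ok) {φ : Lb → Fin 4} (hφ : Prp (adj I) φ) (hc : ChainId I φ) :
    ∃ ι, I.csp.Sol (fun x => if x < nv I then (φ (Sum.inr (Sum.inl x))).val else 0) ∧
      Wok I (fun x => if x < nv I then (φ (Sum.inr (Sum.inl x))).val else 0) ι ∧
      ∀ a ∈ verts I,
        φ a = col I (fun x => if x < nv I then (φ (Sum.inr (Sum.inl x))).val else 0) ι a := by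
  set f : ℕ → ℕ := fun x => if x < nv I then (φ (Sum.inr (Sum.inl x))).val else 0 with hf
  have f1 : ∀ x, x < nv I → f x = (φ (Sum.inr (Sum.inl x))).val := fun x hx => by
    simp only [hf, if_pos hx]
  have f2 : ∀ x, x < nv I → lst I (Sum.inl x) (f x) = true := by
    intro x hx
    rw [f1 x hx]
    exact lst_of_chainId hφ hc ((mem_var I).2 hx)
  have key : ∀ e, ∃ i, e < nw I → i ≤ 5 ∧
      (∀ j < 5, (φ (Sum.inr (Sum.inr (e, j)))).val =
        if j < i then lv (wr I e).1.2 (wr I e).2.2 j else rv (wr I e).1.2 (wr I e).2.2 j) ∧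
      (f (wr I e).1.1 = (wr I e).1.2 → i = 0) ∧ (f (wr I e).2.1 = (wr I e).2.2 → i = 5) := by
    intro e
    by_cases he : e < nw I
    · obtain ⟨w1, w2, -, w4, w5⟩ := hok.2 _ (wr_mem he)
      obtain ⟨i, h1, h2, h3, h4⟩ := path_decode w4 w5
        (fun j => (φ (Sum.inr (Sum.inr (e, j)))).val) (by
          intro j hj
          have h := lst_of_chainId hφ hc ((mem_wire I).2 ⟨he, hj⟩)
          simp only [lst] at h
          simp only [lv, rv]
          interval_cases j <;> simpa [or_comm] using h) (by
          intro j hj h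
          exact hφ _ _ (adj_wire he hj) (Fin.ext h))
      refine ⟨i, fun _ => ⟨h1, h2, ?_, ?_⟩⟩
      · intro h5
        apply h3
        intro h6
        rw [f1 _ w1] at h5
        exact hφ _ _ (adj_left he w1) (Fin.ext (by rw [h5]; exact h6.symm))
      · intro h5
        apply h4
        intro h6
        rw [f1 _ w2] at h5
        exact hφ _ _ (adj_right he w2) (Fin.ext (by rw [h5]; exact h6.symm))
    · exact ⟨0, fun h => absurd h he⟩
  choose ι hι using key
  refine ⟨ι, ⟨?_, ?_, ?_⟩, ?_, ?_⟩
  · intro x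
    by_cases hx : x < nv I
    · have h := f2 x hx
      simp only [lst, Bool.or_eq_true, Bool.and_eq_true, decide_eq_true_eq] at h
      omega
    · simp only [hf, if_neg hx]
      omega
  · intro x hx2
    by_cases hx : x < nv I
    · have h := f2 x hx
      have h2 : I.1.getD x true = true := hx2
      simp only [lst, h2, Bool.or_eq_true, Bool.and_eq_true, decide_eq_true_eq, Bool.not_true,
        Bool.false_eq_true, and_false, or_false] at h
      omega
    · simp only [hf, if_neg hx]
      omega
  · intro w hw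
    obtain ⟨e, he, rfl⟩ := exists_wr hw
    rintro ⟨h1, h2⟩
    have h3 := hι e he
    have h4 := h3.2.2.1 h1
    have h5 := h3.2.2.2 h2
    omega
  · intro e he
    have h3 := hι e he
    exact ⟨h3.1, h3.2.2.1, h3.2.2.2⟩
  · intro a ha
    rcases a with ⟨t, i⟩ | x | ⟨e, j⟩
    · rw [mem_chain] at ha
      exact hc t ha.1 i ha.2
    · rw [mem_var] at ha
      simp only [col, coln]
      rw [f1 x ha, q4_of_val]
    · rw [mem_wire] at ha
      have h3 := (hι e ha.1).2.1 j ha.2
      simp only [col, coln]
      rw [← h3, q4_of_val]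

/-- frozen vertices do not change -/
theorem Frz.eq {Λ K : Type*} {ad : Λ → Λ → Prop} {φ ψ : Λ → K} {v : Λ} (hf : Frz ad φ v)
    (hirr : ∀ a, ¬ ad a a) (h : Rc ad φ ψ) : ψ v = φ v := by
  obtain ⟨h1, h2, u, hu⟩ := h
  by_contra hne
  have huv : u = v := by
    by_contra h3
    exact hne (hu v (fun h4 => h3 h4.symm))
  subst huv
  obtain ⟨w, hw, hw'⟩ := hf (ψ u) hne
  have hwu : w ≠ u := by
    rintro rfl
    exact hirr _ hw
  have := hu w hwu
  exact h2 _ _ hw (by rw [this, hw'])

/-- The chain is frozen while variable `0` has colour `0`. -/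
theorem frz_chain (hok : I.Ok) {φ : Lb → Fin 4} (hc : ChainId I φ)
    (h0 : φ (Sum.inr (Sum.inl 0)) = 0) {t i : ℕ} (ht : t < nT I) (hi : i < 4) :
    Frz (adj I) φ (Sum.inl (t, i)) := by
  have hT := nT_ge (I := I)
  have hv : 0 < nv I := by
    have := hok.1
    unfold nv
    by_contra h
    rw [List.getElem?_eq_none (by omega)] at this
    exact absurd this (by simp)
  intro c hcne
  rw [hc t ht i hi] at hcne
  have hcv := c.isLt
  obtain ⟨m, hm, rfl⟩ : ∃ m < 4, c = q4 m := ⟨c.val, hcv, (q4_of_val c).symm⟩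
  have hmi : m ≠ i := fun h => hcne (by rw [h])
  rcases lt_or_gt_of_ne hmi with h | h
  · -- smaller colours: previous column
    by_cases ht0 : t = 0
    · subst ht0
      by_cases h1 : m = 0 ∧ i = 2
      · obtain ⟨rfl, rfl⟩ := h1
        exact ⟨_, adj_key hv, h0⟩
      · exact ⟨_, adj_symm (adj_wrap h hi h1), hc _ (by omega) _ hm⟩
    · refine ⟨Sum.inl (t - 1, m), adj_symm ?_, hc _ (by omega) _ hm⟩
      have := adj_chain (I := I) (t := t - 1) (i := m) (j := i) (by omega) h hi
      rwa [show t - 1 + 1 = t by omega] at this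
  · by_cases ht0 : t + 1 = nT I
    · have h2 : t = nT I - 1 := by omega
      subst h2
      by_cases h1 : i = 0 ∧ m = 2
      · obtain ⟨rfl, rfl⟩ := h1
        exact ⟨_, adj_lock, hc _ (by omega) _ hm⟩
      · exact ⟨_, adj_wrap h hm h1, hc _ (by omega) _ hm⟩
    · exact ⟨_, adj_chain (by omega) h hm, hc _ (by omega) _ hm⟩

/-- Recolouring while variable `0` has colour `0`. -/
theorem closed (hok : I.Ok) {f : ℕ → ℕ} (hf : I.csp.Sol f) (hf0 : f 0 = 0) {ι : ℕ → ℕ}
    (hfv : ∀ x, nv I ≤ x → f x = 0)
    {φ ψ : Lb → Fin 4} (hφ : ∀ a ∈ verts I, φ a = col I f ι a) (h : Rc (adj I) φ ψ) :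
    ∃ g κ, I.csp.Step f g ∧ (∀ x, nv I ≤ x → g x = 0) ∧ Wok I g κ ∧
      ∀ a ∈ verts I, ψ a = col I g κ a := by
  have hv : 0 < nv I := by
    have := hok.1
    unfold nv
    by_contra h
    rw [List.getElem?_eq_none (by omega)] at this
    exact absurd this (by simp)
  have hc : ChainId I φ := fun t ht i hi => hφ _ ((mem_chain I).2 ⟨ht, hi⟩)
  have h0 : φ (Sum.inr (Sum.inl 0)) = 0 := by
    rw [hφ _ ((mem_var I).2 hv)]
    simp only [col, coln, hf0]
    rfl
  have hc' : ChainId I ψ := by
    intro t ht i hi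
    rw [(frz_chain hok hc h0 ht hi).eq adj_irrefl h]
    exact hc t ht i hi
  obtain ⟨κ, h1, h2, h3⟩ := decode hok h.2.1 hc'
  refine ⟨_, κ, ⟨hf, h1, ?_⟩, fun x hx => if_neg (by omega), h2, h3⟩
  obtain ⟨-, -, v, hv⟩ := h
  have e1 : ∀ x, x < nv I → f x = (φ (Sum.inr (Sum.inl x))).val := by
    intro x hx
    rw [hφ _ ((mem_var I).2 hx)]
    simp only [col, coln]
    rw [q4_val]
    have := hf.1 x
    omega
  by_cases hv' : ∃ x, v = Sum.inr (Sum.inl x)
  · obtain ⟨x, rfl⟩ := hv'
    refine ⟨x, fun y hy => ?_⟩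
    split_ifs with h4
    · rw [e1 y h4, hv _ (by simpa using hy)]
    · exact (hfv y (by omega)).symm
  · refine ⟨0, fun y _ => ?_⟩
    split_ifs with h4
    · rw [e1 y h4, hv _ (fun h5 => hv' ⟨y, h5.symm⟩)]
    · exact (hfv y (by omega)).symm

theorem Rc.symm {Λ K : Type*} {ad : Λ → Λ → Prop} {φ ψ : Λ → K} (h : Rc ad φ ψ) : Rc ad ψ φ :=
  ⟨h.2.1, h.1, h.2.2.choose, fun u hu => (h.2.2.choose_spec u hu).symm⟩

theorem Rch.symm {Λ K : Type*} {ad : Λ → Λ → Prop} {φ ψ : Λ → K} (h : Rch ad φ ψ) :
    Rch ad ψ φ := by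
  induction h with
  | refl => exact Relation.ReflTransGen.refl
  | tail _ h ih => exact Relation.ReflTransGen.head h.symm ih

/-- moving one wire by one -/
theorem wire_step (hok : I.Ok) {f : ℕ → ℕ} (hf : I.csp.Sol f) {ι : ℕ → ℕ} (hι : Wok I f ι) {e : ℕ}
    (he1 : f (wr I e).1.1 ≠ (wr I e).1.2) (he2 : f (wr I e).2.1 ≠ (wr I e).2.2) (i : ℕ)
    (hi : i < 5) :
    Rc (adj I) (col I f (Function.update ι e i)) (col I f (Function.update ι e (i + 1))) := by
  have hW : ∀ i ≤ 5, Wok I f (Function.update ι e i) := by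
    intro i hi e' he'
    by_cases h : e' = e
    · subst h
      rw [Function.update_self]
      exact ⟨hi, fun h => absurd h he1, fun h => absurd h he2⟩
    · rw [Function.update_of_ne h]
      exact hι e' he'
  refine ⟨prp_col hok hf (hW i (by omega)), prp_col hok hf (hW (i + 1) (by omega)),
    Sum.inr (Sum.inr (e, i)), ?_⟩
  intro u hu
  unfold col
  congr 1
  rcases u with ⟨t, j⟩ | x | ⟨e', j⟩
  · rfl
  · rfl
  · simp only [coln]
    by_cases h : e' = e
    · subst h
      rw [Function.update_self, Function.update_self]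
      have : j ≠ i := fun h => hu (by rw [h])
      by_cases h1 : j < i
      · rw [if_pos h1, if_pos (by omega)]
      · rw [if_neg h1, if_neg (by omega)]
    · rw [Function.update_of_ne h, Function.update_of_ne h]

/-- moving one wire -/
theorem wire_move (hok : I.Ok) {f : ℕ → ℕ} (hf : I.csp.Sol f) {ι κ : ℕ → ℕ} (hι : Wok I f ι)
    (hκ : Wok I f κ) {e : ℕ} (he : e < nw I) :
    Rch (adj I) (col I f ι) (col I f (Function.update ι e (κ e))) := by
  by_cases he1 : f (wr I e).1.1 = (wr I e).1.2
  · rw [(hκ e he).2.1 he1, ← (hι e he).2.1 he1, Function.update_eq_self]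
    exact Relation.ReflTransGen.refl
  · by_cases he2 : f (wr I e).2.1 = (wr I e).2.2
    · rw [(hκ e he).2.2 he2, ← (hι e he).2.2 he2, Function.update_eq_self]
      exact Relation.ReflTransGen.refl
    · have key : ∀ i ≤ 5, Rch (adj I) (col I f (Function.update ι e 0))
          (col I f (Function.update ι e i)) := by
        intro i hi
        induction i with
        | zero => exact Relation.ReflTransGen.refl
        | succ i ih =>
          exact (ih (by omega)).tail (wire_step hok hf hι he1 he2 i (by omega))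
      have h1 := key (ι e) (hι e he).1
      rw [Function.update_eq_self] at h1
      exact h1.symm.trans (key (κ e) (hκ e he).1)

/-- moving all wires -/
theorem wires_move (hok : I.Ok) {f : ℕ → ℕ} (hf : I.csp.Sol f) {ι κ : ℕ → ℕ} (hι : Wok I f ι)
    (hκ : Wok I f κ) : ∃ μ, Rch (adj I) (col I f ι) (col I f μ) ∧ ∀ e < nw I, μ e = κ e := by
  have key : ∀ m ≤ nw I, ∃ μ, Wok I f μ ∧ Rch (adj I) (col I f ι) (col I f μ) ∧
      ∀ e < m, μ e = κ e := by
    intro m hm
    induction m with
    | zero => exact ⟨ι, hι, Relation.ReflTransGen.refl, fun e he => absurd he (by omega)⟩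
    | succ m ih =>
      obtain ⟨μ, h1, h2, h3⟩ := ih (by omega)
      refine ⟨Function.update μ m (κ m), ?_, h2.trans (wire_move hok hf h1 hκ (by omega)), ?_⟩
      · intro e he
        by_cases h : e = m
        · subst h
          rw [Function.update_self]
          exact hκ e he
        · rw [Function.update_of_ne h]
          exact h1 e he
      · intro e he
        by_cases h : e = m
        · subst h
          rw [Function.update_self]
        · rw [Function.update_of_ne h]
          exact h3 e (by omega)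
  obtain ⟨μ, -, h2, h3⟩ := key (nw I) le_rfl
  exact ⟨μ, h2, h3⟩

/-- A step of the constraint satisfaction problem can be imitated. -/
theorem move (hok : I.Ok) {f g : ℕ → ℕ} (h : I.csp.Step f g) {ι : ℕ → ℕ} (hι : Wok I f ι) :
    ∃ κ, Wok I g κ ∧ Rch (adj I) (col I f ι) (col I g κ) := by
  classical
  obtain ⟨hf, hg, x₀, hx⟩ := h
  set κ : ℕ → ℕ := fun e =>
    if f (wr I e).1.1 = (wr I e).1.2 ∨ g (wr I e).1.1 = (wr I e).1.2 then 0 else 5 with hκdef
  have no : ∀ e < nw I, (f (wr I e).1.1 = (wr I e).1.2 ∨ g (wr I e).1.1 = (wr I e).1.2) →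
      ¬ (f (wr I e).2.1 = (wr I e).2.2) ∧ ¬ (g (wr I e).2.1 = (wr I e).2.2) := by
    intro e he h1
    have f3 := hf.2.2 _ (wr_mem he)
    have g3 := hg.2.2 _ (wr_mem he)
    obtain ⟨-, -, hne, -, -⟩ := hok.2 _ (wr_mem he)
    by_cases e1 : (wr I e).1.1 = x₀
    · have e2 : (wr I e).2.1 ≠ x₀ := fun h => hne (by rw [e1, h])
      have e3 := hx _ e2
      rcases h1 with h1 | h1
      · have := fun h => f3 ⟨h1, h⟩
        exact ⟨this, by rw [e3]; exact this⟩
      · have := fun h => g3 ⟨h1, h⟩
        exact ⟨by rw [← e3]; exact this, this⟩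
    · have e3 := hx _ e1
      rcases h1 with h1 | h1
      · exact ⟨fun h => f3 ⟨h1, h⟩, fun h => g3 ⟨by rw [e3]; exact h1, h⟩⟩
      · exact ⟨fun h => f3 ⟨by rw [← e3]; exact h1, h⟩, fun h => g3 ⟨h1, h⟩⟩
  have W1 : Wok I f κ := by
    intro e he
    simp only [hκdef]
    refine ⟨by split_ifs <;> omega, fun h1 => if_pos (Or.inl h1), fun h1 => if_neg fun h2 => ?_⟩
    exact (no e he h2).1 h1
  have W2 : Wok I g κ := by
    intro e he
    simp only [hκdef]
    refine ⟨by split_ifs <;> omega, fun h1 => if_pos (Or.inr h1), fun h1 => if_neg fun h2 => ?_⟩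
    exact (no e he h2).2 h1
  obtain ⟨μ, h1, h2⟩ := wires_move hok hf hι W1
  have W3 : Wok I f μ := fun e he => by rw [h2 e he]; exact W1 e he
  have W4 : Wok I g μ := fun e he => by rw [h2 e he]; exact W2 e he
  refine ⟨μ, W4, h1.tail ⟨prp_col hok hf W3, prp_col hok hg W4, Sum.inr (Sum.inl x₀), ?_⟩⟩
  intro u hu
  unfold col
  congr 1
  rcases u with ⟨t, j⟩ | x | ⟨e', j⟩
  · rfl
  · exact hx x (fun h => hu (by rw [h]))
  · rfl

end Pool.Agent.NPC.Mix
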