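import Pool.Agent.H679R2.Mix.Order
import Pool.Agent.H679R2.Mix.Decode
import Pool.Agent.H415R2.MixT4
import Pool.Agent.H415R2.MixT5a

/-!
# The two directions for four colours
-/

namespace Pool.Agent.NPC.Mix

variable {I : NC}

/-- unfrozen plain vertices unlock everything -/
theorem unravelI (φ : Lb → Fin 4) (hφ : Prp (adj I) φ) (p : Lb) (hp : Pl I p)
    (hu : ¬ Frz (adj I) φ p) :
    ∃ ψ, Rch (adj I) φ ψ ∧ ∀ u ∈ verts I, ψ u = stdc side u := by
  classical
  obtain ⟨ψ, h1, h2⟩ := T4.unravel (adj I) (fun a b => adj_symm) side (fun a b => adj_side)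
    (verts I).toFinset (fun a b h => List.mem_toFinset.2 h.1) (Pl I) (fun p => Pl_deg) hub Pl_hub
    (Sum.inl (3, 1)) (Sum.inl (3, 2)) (Sum.inl (3, 3)) (adj_hub.2 (Or.inl rfl))
    (adj_hub.2 (Or.inr (Or.inl rfl))) (adj_hub.2 (Or.inr (Or.inr rfl))) (by simp) (by simp)
    (by simp) hconn (fun a b => hord) φ hφ p hp hu
  exact ⟨ψ, h1, fun u hu => h2 u (List.mem_toFinset.2 hu)⟩

theorem nv_pos (hok : I.Ok) : 0 < nv I := by
  have := hok.1
  unfold nv
  by_contra h
  rw [List.getElem?_eq_none (by omega)] at this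
  exact absurd this (by simp)

/-- rigidity -/
theorem rigid (hok : I.Ok) (φ : Lb → Fin 4) (hφ : Prp (adj I) φ)
    (hf : ∀ p, Pl I p → Frz (adj I) φ p) :
    ∃ σ : Equiv.Perm (Fin 4), (∀ t < nT I, ∀ i < 4, φ (Sum.inl (t, i)) = σ (q4 i)) ∧
      φ (Sum.inr (Sum.inl 0)) = σ 0 := by
  have hT := nT_ge (I := I)
  have hv := nv_pos hok
  have hlast : ∀ i, ¬ Sx I (nT I - 1) i := fun i h => by have := Sx_bd h; omega
  obtain ⟨σ, h1, h2⟩ := T5a.rigid_abs (nT I) hT (fun t i => φ (Sum.inl (t, i)))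
    (φ (Sum.inr (Sum.inl 0))) (Sx I) (fun t i => Sx_bd) (fun t i t' i' => Sx_one)
    (fun t ht i j hij hj => hφ _ _ (adj_chain ht hij hj))
    (fun i j hij hj h => hφ _ _ (adj_wrap hij hj h))
    (by
      intro t i ht ht' hi hS c hc
      obtain ⟨u, hu, rfl⟩ := hf _ (Pl_mk (by omega) hi hS) c hc
      rcases adj_mid ht ht' hS hu with ⟨j, h1, h2, rfl⟩ | ⟨j, h1, rfl⟩
      · exact Or.inl ⟨j, h1, h2, rfl⟩
      · exact Or.inr ⟨j, h1, rfl⟩)
    (by
      intro c hc
      obtain ⟨u, hu, rfl⟩ := hf _ (Pl_small (t := 0) (i := 0) (by omega) (by omega)) c hc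
      rcases adj_first hu with ⟨j, h1, h2, rfl⟩ | ⟨j, h1, h2, rfl⟩ | ⟨h1, rfl⟩
      · interval_cases j <;> simp
      · omega
      · omega)
    (by
      intro c hc
      obtain ⟨u, hu, rfl⟩ := hf _ (Pl_small (t := 0) (i := 1) (by omega) (by omega)) c hc
      rcases adj_first hu with ⟨j, h1, h2, rfl⟩ | ⟨j, h1, h2, rfl⟩ | ⟨h1, rfl⟩
      · interval_cases j <;> simp
      · interval_cases j; simp
      · omega)
    (by
      intro c hc
      obtain ⟨u, hu, rfl⟩ := hf _ (Pl_small (t := 0) (i := 2) (by omega) (by omega)) c hc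
      rcases adj_first hu with ⟨j, h1, h2, rfl⟩ | ⟨j, h1, h2, rfl⟩ | ⟨h1, rfl⟩
      · interval_cases j; simp
      · interval_cases j
        · simp at h2
        · simp
      · simp)
    (by
      intro c hc
      obtain ⟨u, hu, rfl⟩ := hf _ (Pl_small (t := 0) (i := 3) (by omega) (by omega)) c hc
      rcases adj_first hu with ⟨j, h1, h2, rfl⟩ | ⟨j, h1, h2, rfl⟩ | ⟨h1, rfl⟩
      · omega
      · interval_cases j <;> simp
      · omega)
    (by
      intro c hc
      obtain ⟨u, hu, rfl⟩ := hf _ (Pl_mk (t := nT I - 1) (i := 0) (by omega) (by omega) (hlast _)) c hc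
      rcases adj_last hu with ⟨j, h3, h4, h5, rfl⟩ | ⟨j, h3, rfl⟩ | ⟨h3, rfl⟩
      · interval_cases j
        · simp
        · simp at h5
        · simp
      · omega
      · simp)
    (by
      intro c hc
      obtain ⟨u, hu, rfl⟩ := hf _ (Pl_mk (t := nT I - 1) (i := 1) (by omega) (by omega) (hlast _)) c hc
      rcases adj_last hu with ⟨j, h3, h4, h5, rfl⟩ | ⟨j, h3, rfl⟩ | ⟨h3, rfl⟩
      · interval_cases j <;> simp
      · interval_cases j; simp
      · omega)
    (by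
      intro c hc
      obtain ⟨u, hu, rfl⟩ := hf _ (Pl_mk (t := nT I - 1) (i := 2) (by omega) (by omega) (hlast _)) c hc
      rcases adj_last hu with ⟨j, h3, h4, h5, rfl⟩ | ⟨j, h3, rfl⟩ | ⟨h3, rfl⟩
      · interval_cases j; simp
      · interval_cases j <;> simp
      · omega)
    (by
      intro c hc
      obtain ⟨u, hu, rfl⟩ := hf _ (Pl_mk (t := nT I - 1) (i := 3) (by omega) (by omega) (hlast _)) c hc
      rcases adj_last hu with ⟨j, h3, h4, h5, rfl⟩ | ⟨j, h3, rfl⟩ | ⟨h3, rfl⟩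
      · omega
      · interval_cases j <;> simp
      · omega)
  refine ⟨σ, fun t ht i hi => ?_, h2⟩
  have := h1 t ht (q4 i)
  rwa [q4_val hi] at this

theorem Rc.comp {Λ K K' : Type*} {ad : Λ → Λ → Prop} {φ ψ : Λ → K} (h : Rc ad φ ψ) {σ : K → K'}
    (hσ : Function.Injective σ) : Rc ad (fun v => σ (φ v)) (fun v => σ (ψ v)) := by
  obtain ⟨h1, h2, v, hv⟩ := h
  exact ⟨fun a b hab h => h1 a b hab (hσ h), fun a b hab h => h2 a b hab (hσ h), v,
    fun u hu => by simp only; rw [hv u hu]⟩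

theorem Rch.comp {Λ K K' : Type*} {ad : Λ → Λ → Prop} {φ ψ : Λ → K} (h : Rch ad φ ψ) {σ : K → K'}
    (hσ : Function.Injective σ) : Rch ad (fun v => σ (φ v)) (fun v => σ (ψ v)) := by
  induction h with
  | refl => exact Relation.ReflTransGen.refl
  | tail _ h ih => exact ih.tail (h.comp hσ)

/-- two-coloured colourings reach the standard one -/
theorem two_col {a b : Fin 4} (hab : a ≠ b) (φ : Lb → Fin 4)
    (hφ : ∀ u ∈ verts I, φ u = if side u = true then a else b) :
    ∃ ψ, Rch (adj I) φ ψ ∧ ∀ u ∈ verts I, ψ u = stdc side u := by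
  have hT := nT_ge (I := I)
  have hprp : Prp (adj I) φ := by
    intro u v huv
    rw [hφ u huv.1, hφ v huv.2.1]
    have := adj_side huv
    cases h1 : side u <;> cases h2 : side v
    · rw [h1, h2] at this; exact absurd rfl this
    · simpa using hab.symm
    · simpa using hab
    · rw [h1, h2] at this; exact absurd rfl this
  refine unravelI φ hprp hub Pl_hub ?_
  intro hf
  obtain ⟨c, hc1, hc2⟩ : ∃ c : Fin 4, c ≠ a ∧ c ≠ b :=
    (by decide : ∀ a b : Fin 4, ∃ c : Fin 4, c ≠ a ∧ c ≠ b) a b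
  have hhub : φ hub = b := by
    rw [hφ hub ((mem_chain I).2 ⟨by omega, by omega⟩)]
    simp [side, hub]
  obtain ⟨u, hu, hu'⟩ := hf c (by rw [hhub]; exact hc2)
  have : φ u = a := by
    rw [hφ u hu.2.1]
    rcases adj_hub.1 hu with rfl | rfl | rfl <;> simp [side]
  exact hc1 (by rw [← hu', this])

/-- walking along the constraint satisfaction problem -/
theorem walk (hok : I.Ok) {f g : ℕ → ℕ} (h : Relation.ReflTransGen I.csp.Step f g) {ι : ℕ → ℕ}
    (hι : Wok I f ι) : ∃ κ, Wok I g κ ∧ Rch (adj I) (col I f ι) (col I g κ) := by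
  induction h with
  | refl => exact ⟨ι, hι, Relation.ReflTransGen.refl⟩
  | tail _ h ih =>
    obtain ⟨κ, h1, h2⟩ := ih
    obtain ⟨μ, h3, h4⟩ := move hok h h1
    exact ⟨μ, h3, h2.trans h4⟩

/-- colourings that agree on the vertices -/
theorem agree_reach {φ φ' ψ : Lb → Fin 4} (h : ∀ u ∈ verts I, φ u = φ' u)
    (hr : Rch (adj I) φ' ψ) : ∃ ψ', Rch (adj I) φ ψ' ∧ ∀ u ∈ verts I, ψ' u = ψ u := by
  classical
  set m : (Lb → Fin 4) → (Lb → Fin 4) := fun χ u => if u ∈ verts I then χ u else φ u with hm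
  have hmp : ∀ χ, Prp (adj I) χ → Prp (adj I) (m χ) := by
    intro χ hχ a b hab
    simp only [hm, if_pos hab.1, if_pos hab.2.1]
    exact hχ a b hab
  have hmφ : m φ' = φ := by
    funext u
    by_cases hu : u ∈ verts I
    · simp only [hm, if_pos hu, h u hu]
    · simp only [hm, if_neg hu]
  refine ⟨m ψ, ?_, fun u hu => by simp only [hm, if_pos hu]⟩
  rw [← hmφ]
  have key : ∀ χ, Rch (adj I) φ' χ → Rch (adj I) (m φ') (m χ) := by
    intro χ hχ
    induction hχ with
    | refl => exact Relation.ReflTransGen.refl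
    | tail _ h ih =>
      obtain ⟨h1, h2, v, hv⟩ := h
      refine ih.tail ⟨hmp _ h1, hmp _ h2, v, fun u hu => ?_⟩
      simp only [hm]
      split_ifs
      · exact hv u hu
      · rfl
  exact key ψ hr

/-- positive direction -/
theorem pos_dir (hok : I.Ok) (hg : I.csp.Good) (φ : Lb → Fin 4) (hφ : Prp (adj I) φ) :
    ∃ ψ, Rch (adj I) φ ψ ∧ ∀ u ∈ verts I, ψ u = stdc side u := by
  classical
  have hT := nT_ge (I := I)
  by_cases hall : ∀ p, Pl I p → Frz (adj I) φ p
  swap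
  · push Not at hall
    obtain ⟨p, hp, hp'⟩ := hall
    exact unravelI φ hφ p hp hp'
  obtain ⟨σ, h1, h2⟩ := rigid hok φ hφ hall
  have hv := nv_pos hok
  set φ' : Lb → Fin 4 := fun u => σ.symm (φ u) with hφ'
  have hp' : Prp (adj I) φ' := fun a b hab h => hφ a b hab (σ.symm.injective h)
  have hc : ChainId I φ' := fun t ht i hi => by
    simp only [hφ', h1 t ht i hi, Equiv.symm_apply_apply]
  obtain ⟨ι, h3, h4, h5⟩ := decode hok hp' hc
  obtain ⟨g, h6, h7⟩ := hg _ h3
  obtain ⟨κ, h8, h9⟩ := walk hok h6 h4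
  have hgs : I.csp.Sol g := by
    rcases Relation.ReflTransGen.cases_tail h6 with h | ⟨g', -, h⟩
    · rw [h]; exact h3
    · exact h.2.1
  -- the vertex (0, 2) is not frozen
  have hunf : ¬ Frz (adj I) (col I g κ) (Sum.inl (0, 2)) := by
    intro hf
    have cq : ∀ t i, col I g κ (Sum.inl (t, i)) = q4 i := fun t i => rfl
    obtain ⟨u, hu, hu'⟩ := hf 0 (by rw [cq]; decide)
    have h02 := adj_first hu
    rcases h02 with ⟨j, e1, e2, rfl⟩ | ⟨j, e1, e2, rfl⟩ | ⟨e1, rfl⟩
    · interval_cases j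
      exact absurd hu' (by rw [cq]; decide)
    · interval_cases j
      · simp at e2
      · exact absurd hu' (by rw [cq]; decide)
    · have h7' : g 0 = 1 := h7
      simp only [col, coln, h7'] at hu'
      exact absurd hu' (by decide)
  obtain ⟨χ, h10, h11⟩ := unravelI (col I g κ) (prp_col hok hgs h8) (Sum.inl (0, 2))
    (Pl_small (by omega) (by omega)) hunf
  obtain ⟨χ', h12, h13⟩ := agree_reach h5 (h9.trans h10)
  have h14 : Rch (adj I) φ (fun u => σ (χ' u)) := by
    have := h12.comp σ.injective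
    simp only [hφ', Equiv.apply_symm_apply] at this
    exact this
  obtain ⟨ψ, h15, h16⟩ := two_col (I := I) (a := σ 0) (b := σ 1)
    (fun h => absurd (σ.injective h) (by decide)) (fun u => σ (χ' u)) (by
      intro u hu
      simp only [h13 u hu, h11 u hu, stdc]
      split_ifs <;> rfl)
  exact ⟨ψ, h14.trans h15, h16⟩

/-- negative direction -/
theorem neg_dir (hok : I.Ok) (hg : ¬ I.csp.Good) :
    ∃ S : Set (Lb → Fin 4), S.Nonempty ∧ (∀ φ ∈ S, Prp (adj I) φ ∧
      (∀ c, ∃ a ∈ verts I, φ a = c)) ∧ (∀ φ ∈ S, ∀ ψ, Rc (adj I) φ ψ → ψ ∈ S) ∧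
      ∀ φ ∈ S, ∀ ψ, (∀ u ∈ verts I, ψ u = φ u) → ψ ∈ S := by
  classical
  have hT := nT_ge (I := I)
  have hv := nv_pos hok
  unfold Csp.Good at hg
  push Not at hg
  obtain ⟨f₀, hf₀, hbad₀⟩ := hg
  -- cut off the irrelevant variables
  set f : ℕ → ℕ := fun x => if x < nv I then f₀ x else 0 with hfdef
  have cut : ∀ g g₀ : ℕ → ℕ, I.csp.Sol g → (∀ x < nv I, g₀ x = g x) → (∀ x, g₀ x ≤ 2) →
      (∀ x, I.csp.two x = true → g₀ x ≤ 1) → I.csp.Sol g₀ := by
    intro g g₀ h1 h2 h3 h4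
    refine ⟨h3, h4, fun w hw => ?_⟩
    obtain ⟨w1, w2, -⟩ := hok.2 w hw
    have := h1.2.2 w hw
    rwa [← h2 _ w1, ← h2 _ w2] at this
  have hf : I.csp.Sol f := by
    refine cut f₀ f hf₀ (fun x hx => by simp only [hfdef, if_pos hx]) (fun x => ?_) (fun x hx => ?_)
    · simp only [hfdef]; split_ifs
      · exact hf₀.1 x
      · omega
    · simp only [hfdef]; split_ifs
      · exact hf₀.2.1 x hx
      · omega
  have hbad : ∀ g, Relation.ReflTransGen I.csp.Step f g → g 0 ≠ 1 := by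
    have key : ∀ g, Relation.ReflTransGen I.csp.Step f g → ∃ g₀,
        Relation.ReflTransGen I.csp.Step f₀ g₀ ∧ I.csp.Sol g₀ ∧ (∀ x < nv I, g₀ x = g x) := by
      intro g h
      induction h with
      | refl => exact ⟨f₀, Relation.ReflTransGen.refl, hf₀, fun x hx => by
          simp only [hfdef, if_pos hx]⟩
      | @tail g g' _ h ih =>
        obtain ⟨g₀, h1, h2, h3⟩ := ih
        obtain ⟨h4, h5, y, hy⟩ := h
        set g₁ : ℕ → ℕ := fun x => if x < nv I then g' x else g₀ x with hg₁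
        have h6 : I.csp.Sol g₁ := by
          refine cut g' g₁ h5 (fun x hx => by simp only [hg₁, if_pos hx]) (fun x => ?_)
            (fun x hx => ?_)
          · simp only [hg₁]; split_ifs
            · exact h5.1 x
            · exact h2.1 x
          · simp only [hg₁]; split_ifs
            · exact h5.2.1 x hx
            · exact h2.2.1 x hx
        refine ⟨g₁, h1.tail ⟨h2, h6, y, fun x hx => ?_⟩, h6, fun x hx => by
          simp only [hg₁, if_pos hx]⟩
        simp only [hg₁]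
        split_ifs with h7
        · rw [h3 x h7, hy x hx]
        · rfl
    intro g hg
    obtain ⟨g₀, h1, -, h3⟩ := key g hg
    rw [← h3 0 hv]
    exact hbad₀ g₀ h1
  refine ⟨{φ | Prp (adj I) φ ∧ ∃ g κ, Relation.ReflTransGen I.csp.Step f g ∧ I.csp.Sol g ∧
    (∀ x, nv I ≤ x → g x = 0) ∧ Wok I g κ ∧ ∀ u ∈ verts I, φ u = col I g κ u}, ?_, ?_, ?_, ?_⟩
  · set κ : ℕ → ℕ := fun e => if f (wr I e).1.1 = (wr I e).1.2 then 0 else 5 with hκ
    have hW : Wok I f κ := by
      intro e he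
      simp only [hκ]
      refine ⟨by split_ifs <;> omega, fun h => if_pos h, fun h => if_neg fun h' => ?_⟩
      exact hf.2.2 _ (wr_mem he) ⟨h', h⟩
    exact ⟨col I f κ, prp_col hok hf hW, f, κ, Relation.ReflTransGen.refl, hf,
      fun x hx => by simp only [hfdef, if_neg (not_lt.2 hx)], hW, fun u _ => rfl⟩
  · rintro φ ⟨h1, g, κ, h2, h3, h4, h5, h6⟩
    refine ⟨h1, fun c => ⟨Sum.inl (0, c.val), (mem_chain I).2 ⟨by omega, c.isLt⟩, ?_⟩⟩
    rw [h6 _ ((mem_chain I).2 ⟨by omega, c.isLt⟩)]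
    simp only [col, coln]
    exact q4_of_val c
  · rintro φ ⟨h1, g, κ, h2, h3, h4, h5, h6⟩ ψ hψ
    have hg0 : g 0 = 0 := by
      have e1 := h3.2.1 0 (by
        change I.1.getD 0 true = true
        rw [List.getD_eq_getElem?_getD, hok.1]
        rfl)
      have e2 := hbad g h2
      omega
    obtain ⟨g', κ', h7, h8, h9, h10⟩ := closed hok h3 hg0 h4 h6 hψ
    exact ⟨hψ.2.1, g', κ', h2.tail h7, h7.2.1, h8, h9, h10⟩
  · rintro φ ⟨h1, g, κ, h2, h3, h4, h5, h6⟩ ψ hψ
    refine ⟨fun a b hab => ?_, g, κ, h2, h3, h4, h5, fun u hu => by rw [hψ u hu, h6 u hu]⟩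
    rw [hψ a hab.1, hψ b hab.2.1]
    exact h1 a b hab

end Pool.Agent.NPC.Mix
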