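import Pool.Agent.H671R2.ZDefs
import Pool.Agent.H623R2.PS.Defs

/-!
# `k`-colour mixing: definitions
-/

namespace Pool.Agent.NPC.Mix

/-- The `k`-colouring graph of `G`: its vertices are the proper `k`-colourings of `G`; two
colourings are adjacent when they differ at exactly one vertex. -/
def colGraph {V : Type*} (G : SimpleGraph V) (k : ℕ) : SimpleGraph (G.Coloring (Fin k)) where
  Adj α β := ∃ v, α v ≠ β v ∧ ∀ u, u ≠ v → α u = β u
  symm := ⟨fun _ _ ⟨v, h, h'⟩ => ⟨v, h.symm, fun u hu => (h' u hu).symm⟩⟩
  loopless := ⟨fun _ ⟨_, h, _⟩ => h rfl⟩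

/-- `G` is `k`-mixing: any two `k`-colourings are joined by a path in the `k`-colouring graph. -/
def IsMixing {V : Type*} (G : SimpleGraph V) (k : ℕ) : Prop := (colGraph G k).Preconnected

/-- The decision problem `k`-COLOUR-MIXING: the input is (the adjacency matrix of) a finite simple
graph, the question is whether it is `k`-mixing. -/
def COLOUR_MIXING (k : ℕ) (p : List (List Bool)) : Prop :=
  ∃ (n : ℕ) (G : SimpleGraph (Fin n)), R671.adjMatrix G = p ∧ IsMixing G k

end Pool.Agent.NPC.Mix
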