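import Pool.Agent.H679R2.Mix.Core
import Pool.Agent.NPC.Hard
import Pool.Agent.NPC.Dec
import Pool.Agent.H623R2.MixT1
import Pool.Agent.H634R2.MixT2
import Pool.Agent.H829R2.MixT3
import Pool.Agent.H493R2.MixT3b
import Pool.Agent.H594R2.MixJoin
import Pool.Agent.H634R2.MixT9

/-!
# Hardness of `k`-colour mixing
-/

namespace Pool.Agent.NPC.Mix

variable (I : NC)

/-- the vertices as a type -/
abbrev VI : Type := {a : Lb // a ∈ verts I}

/-- the graph on the vertices -/
def gI : SimpleGraph (VI I) where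
  Adj a b := adb I a.1 b.1 = true
  symm := ⟨fun a b h => by rw [adb_symm]; exact h⟩
  loopless := ⟨fun a h => by rw [adb_irrefl] at h; exact Bool.false_ne_true h⟩

/-- the joined graph -/
def gH (k : ℕ) : SimpleGraph (VI I ⊕ Fin (k - 4)) where
  Adj
  | Sum.inl a, Sum.inl b => adb I a.1 b.1 = true
  | Sum.inr i, Sum.inr j => i ≠ j
  | Sum.inl _, Sum.inr _ => True
  | Sum.inr _, Sum.inl _ => True
  symm := ⟨fun a b h => by
    rcases a with a | i <;> rcases b with b | j
    · change adb I b.1 a.1 = true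
      rw [adb_symm]
      exact h
    · trivial
    · trivial
    · exact fun h' => h h'.symm⟩
  loopless := ⟨fun a h => by
    rcases a with a | i
    · change adb I a.1 a.1 = true at h
      rw [adb_irrefl] at h
      exact Bool.false_ne_true h
    · exact h rfl⟩

variable {I}

theorem gI_adj {a b : VI I} : (gI I).Adj a b ↔ adj I a.1 b.1 :=
  ⟨fun h => ⟨a.2, b.2, h⟩, fun h => h.2.2⟩

theorem verts_nodup : (verts I).Nodup := by
  unfold verts
  refine List.Nodup.append ?_ (List.Nodup.append ?_ ?_ ?_) ?_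
  · exact (List.Nodup.product List.nodup_range List.nodup_range).map Sum.inl_injective
  · exact List.nodup_range.map (fun a b h => Sum.inl_injective (Sum.inr_injective h))
  · exact (List.Nodup.product List.nodup_range List.nodup_range).map
      (fun a b h => Sum.inr_injective (Sum.inr_injective h))
  · intro a ha hb
    simp only [List.mem_map] at ha hb
    obtain ⟨x, -, rfl⟩ := ha
    obtain ⟨y, -, hy⟩ := hb
    simp at hy
  · intro a ha hb
    simp only [List.mem_append, List.mem_map] at ha hb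
    obtain ⟨x, -, rfl⟩ := ha
    rcases hb with ⟨y, -, hy⟩ | ⟨y, -, hy⟩ <;> simp at hy

theorem vertsk_nodup (k : ℕ) : (vertsk I k).Nodup := by
  unfold vertsk
  refine List.Nodup.append (verts_nodup.map Sum.inl_injective)
    (List.nodup_range.map Sum.inr_injective) ?_
  intro a ha hb
  simp only [List.mem_map] at ha hb
  obtain ⟨x, -, rfl⟩ := ha
  obtain ⟨y, -, hy⟩ := hb
  simp at hy

theorem exists_iso (k : ℕ) : Nonempty (grk I k ≃g gH I k) := by
  set c : VI I ⊕ Fin (k - 4) → Lbk := Sum.map Subtype.val Fin.val with hc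
  obtain ⟨e, he⟩ := R671.exists_equiv (vertsk I k) (vertsk_nodup k) c
    (Function.Injective.sumMap Subtype.val_injective Fin.val_injective) (by
      intro z
      simp only [vertsk, List.mem_append, List.mem_map, List.mem_range]
      constructor
      · rintro (⟨a, ha, rfl⟩ | ⟨i, hi, rfl⟩)
        · exact ⟨Sum.inl ⟨a, ha⟩, rfl⟩
        · exact ⟨Sum.inr ⟨i, hi⟩, rfl⟩
      · rintro ⟨a | i, rfl⟩
        · exact Or.inl ⟨a.1, a.2, rfl⟩
        · exact Or.inr ⟨i.1, i.2, rfl⟩)
  refine ⟨⟨e, fun {i j} => ?_⟩⟩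
  have h1 : (grk I k).Adj i j ↔ adbk I (vertsk I k)[i] (vertsk I k)[j] = true := Iff.rfl
  rw [h1, ← he i, ← he j]
  rcases e i with a | i' <;> rcases e j with b | j'
  · exact Iff.rfl
  · simp [hc, adbk, gH]
  · simp [hc, adbk, gH]
  · simp only [hc, Sum.map_inr, adbk, decide_eq_true_eq, gH]
    exact ⟨fun h h' => h (Fin.ext h'), fun h h' => h (by rw [h'])⟩

/-- the reduction is correct -/
theorem correct (hok : I.Ok) {k : ℕ} (hk : 4 ≤ k) : COLOUR_MIXING k (matk I k) ↔ I.csp.Good := by
  classical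
  have h1 : COLOUR_MIXING k (matk I k) ↔ IsMixing (grk I k) k := by
    have h2 : R671.adjMatrix (grk I k) = matk I k :=
      R671.adjMatrix_listGraph _ _ _ _
    constructor
    · rintro ⟨n, G, hG, hm⟩
      have hn : n = (vertsk I k).length := by
        have := congrArg List.length hG
        rw [← h2] at this
        simpa [R671.adjMatrix] using this
      subst hn
      rw [← h2] at hG
      rwa [← R671.adjMatrix_inj hG]
    · exact fun h => ⟨_, _, h2, h⟩
  obtain ⟨e⟩ := exists_iso (I := I) k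
  rw [h1, T7.mixing_iso e k]
  have hside : ∀ u v : VI I, (gI I).Adj u v → side u.1 ≠ side v.1 := fun u v h =>
    adj_side (gI_adj.1 h)
  constructor
  · intro hm
    by_contra hg
    obtain ⟨S, hS, hS1, hS2, -⟩ := neg_dir hok hg
    refine T7.join_neg (gI I) (fun u => side u.1) hside k hk (gH I k) (fun u v => Iff.rfl)
      (fun i j => Iff.rfl) (fun u i => trivial) {φ | ∃ Φ ∈ S, ∀ a, φ a = Φ a.1} ?_ ?_ ?_ hm
    · obtain ⟨Φ, hΦ⟩ := hS
      exact ⟨fun a => Φ a.1, Φ, hΦ, fun a => rfl⟩
    · rintro φ ⟨Φ, hΦ, h⟩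
      refine ⟨fun a b hab => ?_, fun c => ?_⟩
      · rw [h a, h b]
        exact (hS1 Φ hΦ).1 _ _ (gI_adj.1 hab)
      · obtain ⟨a, ha, hac⟩ := (hS1 Φ hΦ).2 c
        exact ⟨⟨a, ha⟩, by rw [h]; exact hac⟩
    · rintro φ ⟨Φ, hΦ, h⟩ ψ ⟨h2, h3, v, hv⟩
      refine ⟨fun u => if hu : u ∈ verts I then ψ ⟨u, hu⟩ else Φ u, ?_, fun a => by
        simp only [dif_pos a.2]⟩
      refine hS2 Φ hΦ _ ⟨(hS1 Φ hΦ).1, ?_, v.1, ?_⟩
      · intro a b hab
        simp only [dif_pos hab.1, dif_pos hab.2.1]
        exact h3 _ _ (gI_adj.2 hab)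
      · intro u hu
        by_cases hu' : u ∈ verts I
        · simp only [dif_pos hu']
          rw [hv ⟨u, hu'⟩ (fun h4 => hu (by rw [← h4])), h]
        · simp only [dif_neg hu']
  · intro hg
    refine T7.join_pos (gI I) (fun u => side u.1) hside k hk (gH I k) (fun u v => Iff.rfl)
      (fun i j => Iff.rfl) (fun u i => trivial) ?_
    intro φ hφ
    obtain ⟨Ψ, h2, h3⟩ := pos_dir hok hg (fun u => if hu : u ∈ verts I then φ ⟨u, hu⟩ else 0) (by
      intro a b hab
      simp only [dif_pos hab.1, dif_pos hab.2.1]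
      exact hφ _ _ (gI_adj.2 hab))
    have key : ∀ Φ Ψ : Lb → Fin 4, Rch (adj I) Φ Ψ →
        Rch (gI I).Adj (fun a => Φ a.1) (fun a => Ψ a.1) := by
      intro Φ Ψ h
      induction h with
      | refl => exact Relation.ReflTransGen.refl
      | @tail χ χ' _ h ih =>
        obtain ⟨h4, h5, v, hv⟩ := h
        by_cases hv' : v ∈ verts I
        · exact ih.tail ⟨fun a b hab => h4 _ _ (gI_adj.1 hab), fun a b hab => h5 _ _ (gI_adj.1 hab),
            ⟨v, hv'⟩, fun u hu => hv _ (fun h6 => hu (Subtype.ext h6))⟩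
        · have : (fun a : VI I => χ' a.1) = fun a => χ a.1 := by
            funext a
            exact hv _ (fun h6 => hv' (h6 ▸ a.2))
          rw [this]
          exact ih
    have h4 := key _ _ h2
    have e1 : (fun a : VI I => if hu : a.1 ∈ verts I then φ ⟨a.1, hu⟩ else 0) = φ := by
      funext a
      simp only [dif_pos a.2]
    have e2 : (fun a : VI I => Ψ a.1) = stdc (fun u : VI I => side u.1) := by
      funext a
      exact h3 a.1 a.2
    rw [e1, e2] at h4
    exact h4

open Pool.Agent.H623R2.PS (InPSPACE PSPACEHard PSPACEComplete)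

/-- `k`-colour mixing is hard for polynomial space. -/
theorem hard {k : ℕ} (hk : 4 ≤ k) : PSPACEHard (lang (COLOUR_MIXING k)) := by
  intro L hL
  obtain ⟨V, _, X, n, φ, hX, hX', hn, hφ, hn0, hr, hL'⟩ := T2.exists_relsys hL
  obtain ⟨nc, hnc, hok, hgood⟩ := T3b.exists_nc hX hX' hn hφ
  have h1 : Poly (fun x : List Bool => matk (nc x) k) := Poly.comp (T9.poly_matk k) hnc
  refine ⟨fun x => bits (matk (nc x) k), ?_, fun x => ?_⟩
  · exact PC.toPolyTime (PC.comp (ea := fun x : List Bool => x) (eb := (bits : List Bool → List Bool))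
      (ec := bits) (g := fun x : List Bool => matk (nc x) k) (f := fun x => x) h1 PC.ofBits)
  · have h2 : x ∈ L ↔ COLOUR_MIXING k (matk (nc x) k) := by
      rw [correct (hok x) hk, hgood x, T3.csp_good (φ x) X (n x) hX (hn0 x) (hr x), hL' x]
    rw [h2]
    constructor
    · intro h
      exact ⟨_, rfl, h⟩
    · rintro ⟨a, ha, hPa⟩
      rw [bits_injective ha] at hPa
      exact hPa

/-- `k`-colour mixing is complete for polynomial space. -/
theorem complete {k : ℕ} (hk : 4 ≤ k) : PSPACEComplete (lang (COLOUR_MIXING k)) :=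
  ⟨T1.member k, hard hk⟩

end Pool.Agent.NPC.Mix
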