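import Pool.Agent.H679R2.Mix.Csp
import Pool.Agent.H671R2.GraphEnc

/-!
# The graph of a numeric instance
-/

namespace Pool.Agent.NPC.Mix

/-- Labels of vertices: `inl (t, i)` is the vertex with colour `i` in column `t` of the palette
chain; `inr (inl x)` is the vertex of the variable `x`; `inr (inr (e, j))` is vertex number `j` of
wire number `e`. -/
abbrev Lb : Type := (ℕ × ℕ) ⊕ (ℕ ⊕ (ℕ × ℕ))

/-- labels with clique vertices -/
abbrev Lbk : Type := Lb ⊕ ℕ

def gam (a b : ℕ) : ℕ := if a = b then (a + 1) % 3 else b
def del (a b : ℕ) : ℕ := if a = b then (a + 2) % 3 else a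

section

variable (I : NC)

/-- number of variables -/
def nv : ℕ := I.1.length
/-- number of wires -/
def nw : ℕ := I.2.length
/-- number of vertices that are not in the chain -/
def nM : ℕ := nv I + 5 * nw I
/-- number of columns -/
def nT : ℕ := 32 * nM I + 24

/-- wire number `e` -/
def wr (e : ℕ) : (ℕ × ℕ) × (ℕ × ℕ) := I.2.getD e ((0, 0), (0, 0))

/-- the colours allowed at a vertex outside the chain -/
def lst : ℕ ⊕ (ℕ × ℕ) → ℕ → Bool
  | Sum.inl x, c => decide (c < 2) || (decide (c = 2) && !(I.1.getD x true))
  | Sum.inr (e, j), c =>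
    let a := (wr I e).1.2
    let b := (wr I e).2.2
    bif decide (j = 0) then decide (c = a) || decide (c = 3)
    else bif decide (j = 1) then decide (c = 3) || decide (c = gam a b)
    else bif decide (j = 2) then decide (c = gam a b) || decide (c = del a b)
    else bif decide (j = 3) then decide (c = del a b) || decide (c = 3)
    else decide (c = 3) || decide (c = b)

/-- the number of a vertex outside the chain -/
def pos : ℕ ⊕ (ℕ × ℕ) → ℕ
  | Sum.inl x => x
  | Sum.inr (e, j) => nv I + 5 * e + j

/-- the sides: `true` for the side of the odd columns and of the variables -/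
def sideM : ℕ ⊕ (ℕ × ℕ) → Bool
  | Sum.inl _ => true
  | Sum.inr (_, j) => decide (j % 2 = 1)

/-- the column of the chain vertex of colour `c` attached to `u` -/
def slot (u : ℕ ⊕ (ℕ × ℕ)) (c : ℕ) : ℕ :=
  16 + 8 * (4 * pos I u + c) + (bif sideM u then 0 else 3)

/-- the next column -/
def nx (t : ℕ) : ℕ := if t + 1 = nT I then 0 else t + 1

/-- edges, in one direction -/
def arc : Lb → Lb → Bool
  | Sum.inl (t, i), Sum.inl (s, j) =>
    (decide (nx I t = s) && decide (i < j) && !(decide (s = 0) && decide (i = 0) && decide (j = 2)))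
      || (decide (t + 1 = nT I) && decide (i = 0) && decide (s = 8) && decide (j = 2))
  | Sum.inl (t, i), Sum.inr u =>
    (decide (t = slot I u i) && !(lst I u i)) ||
      (decide (t = 0) && decide (i = 2) && decide (u = Sum.inl 0))
  | Sum.inr (Sum.inl x), Sum.inr (Sum.inr (e, j)) =>
    (decide (j = 0) && decide (x = (wr I e).1.1)) || (decide (j = 4) && decide (x = (wr I e).2.1))
  | Sum.inr (Sum.inr (e, j)), Sum.inr (Sum.inr (e', j')) => decide (e = e') && decide (j' = j + 1)
  | _, _ => false

/-- adjacency of labels -/
def adb (a b : Lb) : Bool := arc I a b || arc I b a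

/-- the labels of the vertices -/
def verts : List Lb :=
  ((List.range (nT I)) ×ˢ (List.range 4)).map Sum.inl ++
    ((List.range (nv I)).map (fun x => Sum.inr (Sum.inl x)) ++
      ((List.range (nw I)) ×ˢ (List.range 5)).map (fun p => Sum.inr (Sum.inr p)))

/-- adjacency of labels, with the clique -/
def adbk : Lbk → Lbk → Bool
  | Sum.inl a, Sum.inl b => adb I a b
  | Sum.inr i, Sum.inr j => decide (i ≠ j)
  | _, _ => true

/-- the labels of the vertices, with the clique on `k - 4` vertices -/
def vertsk (k : ℕ) : List Lbk :=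
  (verts I).map Sum.inl ++ (List.range (k - 4)).map Sum.inr

/-- the adjacency matrix -/
def matk (k : ℕ) : List (List Bool) :=
  (vertsk I k).map (fun u => (vertsk I k).map (fun w => adbk I u w))

theorem adb_symm (a b : Lb) : adb I a b = adb I b a := Bool.or_comm _ _

theorem adb_irrefl (a : Lb) : adb I a a = false := by
  rcases a with ⟨t, i⟩ | x | ⟨e, j⟩
  · simp only [adb, arc, Bool.or_self, lt_self_iff_false, decide_false, Bool.and_false,
      Bool.false_and, Bool.false_or, Bool.and_eq_false_imp, Bool.and_eq_true, decide_eq_true_eq,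
      decide_eq_false_iff_not, and_imp]
    omega
  · simp [adb, arc]
  · simp [adb, arc]

theorem adbk_symm (a b : Lbk) : adbk I a b = adbk I b a := by
  rcases a with a | i <;> rcases b with b | j <;> simp only [adbk]
  · exact adb_symm I a b
  · simp [eq_comm]

theorem adbk_irrefl (a : Lbk) : adbk I a a = false := by
  rcases a with a | i
  · exact adb_irrefl I a
  · simp [adbk]

/-- the graph -/
def grk (k : ℕ) : SimpleGraph (Fin (vertsk I k).length) :=
  R671.listGraph (vertsk I k) (adbk I) (adbk_symm I) (adbk_irrefl I)

end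

end Pool.Agent.NPC.Mix
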