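import Pool.Agent.H679R2.Mix.Graph
import Pool.Agent.H679R2.Mix.Abs

/-!
# Neighbours in the graph of a numeric instance
-/

namespace Pool.Agent.NPC.Mix

variable (I : NC)

/-- adjacency of the vertices of the graph -/
def adj (a b : Lb) : Prop := a ∈ verts I ∧ b ∈ verts I ∧ adb I a b = true

/-- the chain vertices with an attachment -/
def Sx (t i : ℕ) : Prop :=
  (t = 8 ∧ i = 2) ∨ ∃ q < 4 * nM I, (t = 16 + 8 * q ∨ t = 16 + 8 * q + 3) ∧ i = q % 4

theorem mem_chain {t i : ℕ} : (Sum.inl (t, i) : Lb) ∈ verts I ↔ t < nT I ∧ i < 4 := by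
  simp [verts]

theorem mem_var {x : ℕ} : (Sum.inr (Sum.inl x) : Lb) ∈ verts I ↔ x < nv I := by
  simp [verts]

theorem mem_wire {e j : ℕ} : (Sum.inr (Sum.inr (e, j)) : Lb) ∈ verts I ↔ e < nw I ∧ j < 5 := by
  simp [verts]

variable {I}

theorem adj_symm {a b : Lb} (h : adj I a b) : adj I b a :=
  ⟨h.2.1, h.1, by rw [adb_symm]; exact h.2.2⟩

theorem adj_irrefl (a : Lb) : ¬ adj I a a := fun h => by
  have := h.2.2
  rw [adb_irrefl] at this
  exact Bool.false_ne_true this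

theorem nT_ge : 24 ≤ nT I := by unfold nT; omega

theorem adj_chain {t i j : ℕ} (ht : t + 1 < nT I) (hij : i < j) (hj : j < 4) :
    adj I (Sum.inl (t, i)) (Sum.inl (t + 1, j)) := by
  refine ⟨(mem_chain I).2 (by omega), (mem_chain I).2 (by omega), ?_⟩
  have h1 : nx I t = t + 1 := by unfold nx; rw [if_neg (by omega)]
  simp [adb, arc, h1, hij]

theorem adj_wrap {i j : ℕ} (hij : i < j) (hj : j < 4) (h : ¬ (i = 0 ∧ j = 2)) :
    adj I (Sum.inl (nT I - 1, i)) (Sum.inl (0, j)) := by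
  have hT := nT_ge (I := I)
  refine ⟨(mem_chain I).2 (by omega), (mem_chain I).2 (by omega), ?_⟩
  have h1 : nx I (nT I - 1) = 0 := by unfold nx; rw [if_pos (by omega)]
  have h2 : (decide (i = 0) && decide (j = 2)) = false := by
    simp only [Bool.and_eq_false_imp, decide_eq_true_eq, decide_eq_false_iff_not]
    tauto
  simp [adb, arc, h1, hij, h2]

theorem adj_lock : adj I (Sum.inl (nT I - 1, 0)) (Sum.inl (8, 2)) := by
  have hT := nT_ge (I := I)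
  refine ⟨(mem_chain I).2 (by omega), (mem_chain I).2 (by omega), ?_⟩
  have h3 : nT I - 1 + 1 = nT I := by omega
  simp [adb, arc, h3]

theorem adj_key (h : 0 < nv I) : adj I (Sum.inl (0, 2)) (Sum.inr (Sum.inl 0)) := by
  have hT := nT_ge (I := I)
  refine ⟨(mem_chain I).2 (by omega), (mem_var I).2 h, ?_⟩
  simp [adb, arc]

theorem pos_lt {u : ℕ ⊕ (ℕ × ℕ)} (hu : (Sum.inr u : Lb) ∈ verts I) : pos I u < nM I := by
  unfold nM
  rcases u with x | ⟨e, j⟩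
  · rw [mem_var] at hu
    simp only [pos]
    omega
  · rw [mem_wire] at hu
    simp only [pos]
    omega

theorem slot_lt {u : ℕ ⊕ (ℕ × ℕ)} (hu : (Sum.inr u : Lb) ∈ verts I) {c : ℕ} (hc : c < 4) :
    slot I u c < nT I - 12 := by
  have h := pos_lt hu
  have h' : 4 * pos I u + c < 4 * nM I := by omega
  unfold slot nT
  cases sideM u
  · simp only [cond_false]; omega
  · simp only [cond_true]; omega

theorem adj_slot {u : ℕ ⊕ (ℕ × ℕ)} (hu : (Sum.inr u : Lb) ∈ verts I) {c : ℕ} (hc : c < 4)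
    (hl : lst I u c = false) : adj I (Sum.inl (slot I u c, c)) (Sum.inr u) := by
  have h := slot_lt hu hc
  refine ⟨(mem_chain I).2 (by omega), hu, ?_⟩
  simp [adb, arc, hl]

theorem adj_left {e : ℕ} (he : e < nw I) (hx : (wr I e).1.1 < nv I) :
    adj I (Sum.inr (Sum.inl (wr I e).1.1)) (Sum.inr (Sum.inr (e, 0))) := by
  refine ⟨(mem_var I).2 hx, (mem_wire I).2 ⟨he, by omega⟩, ?_⟩
  simp [adb, arc]

theorem adj_right {e : ℕ} (he : e < nw I) (hx : (wr I e).2.1 < nv I) :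
    adj I (Sum.inr (Sum.inl (wr I e).2.1)) (Sum.inr (Sum.inr (e, 4))) := by
  refine ⟨(mem_var I).2 hx, (mem_wire I).2 ⟨he, by omega⟩, ?_⟩
  simp [adb, arc]

theorem adj_wire {e j : ℕ} (he : e < nw I) (hj : j < 4) :
    adj I (Sum.inr (Sum.inr (e, j))) (Sum.inr (Sum.inr (e, j + 1))) := by
  refine ⟨(mem_wire I).2 ⟨he, by omega⟩, (mem_wire I).2 ⟨he, by omega⟩, ?_⟩
  simp [adb, arc]

/-- the neighbours of a chain vertex -/
theorem adj_inl {t i : ℕ} {v : Lb} (h : adj I (Sum.inl (t, i)) v) :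
    (∃ j, i < j ∧ j < 4 ∧ ¬ (nx I t = 0 ∧ i = 0 ∧ j = 2) ∧ v = Sum.inl (nx I t, j)) ∨
    (∃ s j, j < i ∧ s < nT I ∧ nx I s = t ∧ ¬ (t = 0 ∧ j = 0 ∧ i = 2) ∧ v = Sum.inl (s, j)) ∨
    (t + 1 = nT I ∧ i = 0 ∧ v = Sum.inl (8, 2)) ∨ (t = 8 ∧ i = 2 ∧ v = Sum.inl (nT I - 1, 0)) ∨
    (∃ u, t = slot I u i ∧ lst I u i = false ∧ v = Sum.inr u) ∨
    (t = 0 ∧ i = 2 ∧ v = Sum.inr (Sum.inl 0)) := by
  obtain ⟨h1, h2, h3⟩ := h
  rw [mem_chain] at h1
  rcases v with ⟨s, j⟩ | u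
  · rw [mem_chain] at h2
    simp only [adb, arc, Bool.or_eq_true, Bool.and_eq_true, decide_eq_true_eq, Bool.not_eq_true',
      Bool.and_eq_false_imp, decide_eq_false_iff_not] at h3
    rcases h3 with (⟨⟨h4, h5⟩, h6⟩ | ⟨⟨⟨h4, h5⟩, h6⟩, h7⟩) | (⟨⟨h4, h5⟩, h6⟩ | ⟨⟨⟨h4, h5⟩, h6⟩, h7⟩)
    · refine Or.inl ⟨j, h5, h2.2, ?_, by rw [h4]⟩
      rintro ⟨h7, h8, h9⟩
      exact h6 ⟨by rw [← h4, h7], h8⟩ h9
    · exact Or.inr (Or.inr (Or.inl ⟨h4, h5, by rw [h6, h7]⟩))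
    · refine Or.inr (Or.inl ⟨s, j, h5, h2.1, h4, ?_, rfl⟩)
      rintro ⟨h7, h8, h9⟩
      exact h6 ⟨h7, h8⟩ h9
    · refine Or.inr (Or.inr (Or.inr (Or.inl ⟨h6, h7, ?_⟩)))
      rw [h5, show s = nT I - 1 by omega]
  · have h4 : arc I (Sum.inr u) (Sum.inl (t, i)) = false := by
      rcases u with x | ⟨e, j⟩ <;> rfl
    simp only [adb, h4, Bool.or_false, arc, Bool.or_eq_true, Bool.and_eq_true, decide_eq_true_eq,
      Bool.not_eq_true'] at h3
    rcases h3 with ⟨h5, h6⟩ | ⟨⟨h5, h6⟩, h7⟩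
    · exact Or.inr (Or.inr (Or.inr (Or.inr (Or.inl ⟨u, h5, h6, rfl⟩))))
    · exact Or.inr (Or.inr (Or.inr (Or.inr (Or.inr ⟨h5, h6, by rw [h7]⟩))))

/-- the neighbours outside the chain of a vertex outside the chain -/
theorem adj_inr {u v : ℕ ⊕ (ℕ × ℕ)} (h : adj I (Sum.inr u) (Sum.inr v)) :
    (∃ e j, v = Sum.inr (e, j) ∧ ((j = 0 ∧ u = Sum.inl (wr I e).1.1) ∨
      (j = 4 ∧ u = Sum.inl (wr I e).2.1) ∨ ∃ i, u = Sum.inr (e, i) ∧ j = i + 1)) ∨
    (∃ e j, u = Sum.inr (e, j) ∧ ((j = 0 ∧ v = Sum.inl (wr I e).1.1) ∨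
      (j = 4 ∧ v = Sum.inl (wr I e).2.1) ∨ ∃ i, v = Sum.inr (e, i) ∧ j = i + 1)) := by
  obtain ⟨h1, h2, h3⟩ := h
  rcases u with x | ⟨e, j⟩ <;> rcases v with y | ⟨e', j'⟩ <;>
    simp only [adb, arc, Bool.or_self, Bool.false_eq_true, Bool.or_eq_true, Bool.and_eq_true,
      decide_eq_true_eq, Bool.or_false, Bool.false_or, or_false, false_or] at h3
  · left
    refine ⟨e', j', rfl, ?_⟩
    rcases h3 with ⟨h4, h5⟩ | ⟨h4, h5⟩
    · exact Or.inl ⟨h4, by rw [h5]⟩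
    · exact Or.inr (Or.inl ⟨h4, by rw [h5]⟩)
  · right
    refine ⟨e, j, rfl, ?_⟩
    rcases h3 with ⟨h4, h5⟩ | ⟨h4, h5⟩
    · exact Or.inl ⟨h4, by rw [h5]⟩
    · exact Or.inr (Or.inl ⟨h4, by rw [h5]⟩)
  · rcases h3 with ⟨h4, h5⟩ | ⟨h4, h5⟩
    · left
      exact ⟨e', j', rfl, Or.inr (Or.inr ⟨j, by rw [h4], h5⟩)⟩
    · right
      exact ⟨e, j, rfl, Or.inr (Or.inr ⟨j', by rw [h4], h5⟩)⟩

/-- the side of a vertex -/
def side : Lb → Bool
  | Sum.inl (t, _) => decide (t % 2 = 1)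
  | Sum.inr u => sideM u

theorem nx_odd {t : ℕ} : (nx I t) % 2 = (t + 1) % 2 := by
  unfold nx
  split_ifs with h
  · rw [h]; unfold nT; omega
  · rfl

theorem slot_side {u : ℕ ⊕ (ℕ × ℕ)} {c : ℕ} : decide ((slot I u c) % 2 = 1) = !(sideM u) := by
  unfold slot
  cases sideM u
  · simp only [cond_false, Bool.not_false, decide_eq_true_eq]; omega
  · simp only [cond_true, Bool.not_true, decide_eq_false_iff_not]; omega

theorem arc_side {a b : Lb} (h : arc I a b = true) : side a ≠ side b := by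
  rcases a with ⟨t, i⟩ | x | ⟨e, j⟩ <;> rcases b with ⟨s, k⟩ | y | ⟨e', j'⟩ <;>
    simp only [arc, Bool.or_self, Bool.false_eq_true, Bool.or_eq_true, Bool.and_eq_true,
      decide_eq_true_eq, Bool.or_false, Bool.false_or, or_false, false_or, Bool.not_eq_true',
      Bool.and_eq_false_imp, decide_eq_false_iff_not] at h
  · have := nx_odd (I := I) (t := t)
    simp only [side, ne_eq, decide_eq_decide]
    rcases h with ⟨⟨h4, h5⟩, h6⟩ | ⟨⟨⟨h4, h5⟩, h6⟩, h7⟩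
    · rw [h4] at this
      omega
    · have h8 : nT I % 2 = 0 := by unfold nT; omega
      omega
  · rcases h with ⟨h4, h5⟩ | ⟨⟨h4, h5⟩, h6⟩
    · have h7 := slot_side (I := I) (u := Sum.inl y) (c := i)
      rw [← h4] at h7
      simp only [side, h7]
      cases sideM (Sum.inl y) <;> decide
    · simp [side, sideM, h4]
  · rcases h with ⟨h4, h5⟩ | ⟨⟨h4, h5⟩, h6⟩
    · have h7 := slot_side (I := I) (u := Sum.inr (e', j')) (c := i)
      rw [← h4] at h7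
      simp only [side, h7]
      cases sideM (Sum.inr (e', j')) <;> decide
    · exact absurd h6 (by simp)
  · rcases h with ⟨h4, h5⟩ | ⟨h4, h5⟩ <;> simp [side, sideM, h4]
  · obtain ⟨h4, h5⟩ := h
    simp only [side, sideM, ne_eq, decide_eq_decide]
    omega

theorem adj_side {a b : Lb} (h : adj I a b) : side a ≠ side b := by
  have := h.2.2
  rw [adb, Bool.or_eq_true] at this
  rcases this with h1 | h1
  · exact arc_side h1
  · exact (arc_side h1).symm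

end Pool.Agent.NPC.Mix
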