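import Pool.Agent.H679R2.Mix.Nbr
import Pool.Agent.H415R2.MixT5b

/-!
# Degeneracy order and connectivity
-/

namespace Pool.Agent.NPC.Mix

variable {I : NC}

theorem slot_Sx {u : ℕ ⊕ (ℕ × ℕ)} (hu : (Sum.inr u : Lb) ∈ verts I) {c : ℕ} (hc : c < 4) :
    Sx I (slot I u c) c := by
  have h := pos_lt hu
  refine Or.inr ⟨4 * pos I u + c, by omega, ?_, by omega⟩
  unfold slot
  cases sideM u
  · right; simp only [cond_false]
  · left; simp only [cond_true]; omega

theorem Sx_bd {t i : ℕ} (h : Sx I t i) : 8 ≤ t ∧ t + 8 < nT I := by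
  unfold nT
  rcases h with ⟨h1, h2⟩ | ⟨q, h1, h2, h3⟩ <;> omega

theorem Sx_one {t i t' i' : ℕ} (h : Sx I t i) (h' : Sx I t' i') (h1 : t ≤ t') (h2 : t' ≤ t + 2) :
    t = t' ∧ i = i' := by
  rcases h with ⟨h3, h4⟩ | ⟨q, h3, h4, h5⟩ <;> rcases h' with ⟨h6, h7⟩ | ⟨q', h6, h7, h8⟩ <;> omega

theorem nx_eq {s t : ℕ} (hs : s < nT I) (h : nx I s = t) :
    (t = 0 ∧ s = nT I - 1) ∨ (1 ≤ t ∧ s = t - 1 ∧ t < nT I) := by
  unfold nx at h
  split_ifs at h <;> omega

theorem adj_mem_left {a b : Lb} (h : adj I a b) : a ∈ verts I := h.1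

/-- neighbours in general position -/
theorem adj_mid {t i : ℕ} (ht : 1 ≤ t) (ht' : t + 1 < nT I) (hS : ¬ Sx I t i) {v : Lb}
    (h : adj I (Sum.inl (t, i)) v) :
    (∃ j, i < j ∧ j < 4 ∧ v = Sum.inl (t + 1, j)) ∨ ∃ j, j < i ∧ v = Sum.inl (t - 1, j) := by
  have hi := (mem_chain I).1 h.1
  have e1 : nx I t = t + 1 := by unfold nx; rw [if_neg (by omega)]
  have hm := h.2.1
  rcases adj_inl h with ⟨j, h1, h2, -, h3⟩ | ⟨s, j, h1, h2, h3, -, h4⟩ | ⟨h1, -⟩ | ⟨h1, h2, -⟩ |
    ⟨u, h1, h2, h3⟩ | ⟨h1, -⟩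
  · exact Or.inl ⟨j, h1, h2, by rw [h3, e1]⟩
  · rcases nx_eq h2 h3 with ⟨h5, h6⟩ | ⟨h5, h6, -⟩
    · omega
    · exact Or.inr ⟨j, h1, by rw [h4, h6]⟩
  · omega
  · exact absurd (Or.inl ⟨h1, h2⟩) hS
  · exact absurd (by rw [h1]; exact slot_Sx (by rw [← h3]; exact hm) hi.2) hS
  · omega

/-- neighbours in the first column -/
theorem adj_first {i : ℕ} {v : Lb} (h : adj I (Sum.inl (0, i)) v) :
    (∃ j, i < j ∧ j < 4 ∧ v = Sum.inl (1, j)) ∨
    (∃ j, j < i ∧ ¬ (j = 0 ∧ i = 2) ∧ v = Sum.inl (nT I - 1, j)) ∨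
    (i = 2 ∧ v = Sum.inr (Sum.inl 0)) := by
  have hT := nT_ge (I := I)
  have hi := (mem_chain I).1 h.1
  have e1 : nx I 0 = 1 := by unfold nx; rw [if_neg (by omega)]
  have hm := h.2.1
  rcases adj_inl h with ⟨j, h1, h2, -, h3⟩ | ⟨s, j, h1, h2, h3, h3', h4⟩ | ⟨h1, -⟩ | ⟨h1, h2, -⟩ |
    ⟨u, h1, h2, h3⟩ | ⟨h1, h2, h3⟩
  · exact Or.inl ⟨j, h1, h2, by rw [h3, e1]⟩
  · rcases nx_eq h2 h3 with ⟨h5, h6⟩ | ⟨h5, h6, -⟩
    · exact Or.inr (Or.inl ⟨j, h1, fun h7 => h3' ⟨rfl, h7⟩, by rw [h4, h6]⟩)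
    · omega
  · omega
  · omega
  · have := Sx_bd (slot_Sx (I := I) (by rw [← h3]; exact hm) hi.2)
    omega
  · exact Or.inr (Or.inr ⟨h2, h3⟩)

/-- neighbours in the last column -/
theorem adj_last {i : ℕ} {v : Lb} (h : adj I (Sum.inl (nT I - 1, i)) v) :
    (∃ j, i < j ∧ j < 4 ∧ ¬ (i = 0 ∧ j = 2) ∧ v = Sum.inl (0, j)) ∨
    (∃ j, j < i ∧ v = Sum.inl (nT I - 2, j)) ∨ (i = 0 ∧ v = Sum.inl (8, 2)) := by
  have hT := nT_ge (I := I)
  have hi := (mem_chain I).1 h.1
  have e1 : nx I (nT I - 1) = 0 := by unfold nx; rw [if_pos (by omega)]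
  have hm := h.2.1
  rcases adj_inl h with ⟨j, h1, h2, h2', h3⟩ | ⟨s, j, h1, h2, h3, h3', h4⟩ | ⟨h1, h2, h3⟩ |
    ⟨h1, h2, -⟩ | ⟨u, h1, h2, h3⟩ | ⟨h1, h2, h3⟩
  · exact Or.inl ⟨j, h1, h2, fun h4 => h2' ⟨e1, h4⟩, by rw [h3, e1]⟩
  · rcases nx_eq h2 h3 with ⟨h5, h6⟩ | ⟨h5, h6, -⟩
    · omega
    · refine Or.inr (Or.inl ⟨j, h1, by rw [h4, h6]; congr 2⟩)
  · exact Or.inr (Or.inr ⟨h2, h3⟩)
  · omega
  · have := Sx_bd (slot_Sx (I := I) (by rw [← h3]; exact hm) hi.2)
    omega
  · omega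

/-- plain chain vertices -/
def Pl (I : NC) (a : Lb) : Prop := ∃ t i, a = Sum.inl (t, i) ∧ t < nT I ∧ i < 4 ∧ ¬ Sx I t i

theorem Pl_mk {t i : ℕ} (ht : t < nT I) (hi : i < 4) (h : ¬ Sx I t i) : Pl I (Sum.inl (t, i)) :=
  ⟨t, i, rfl, ht, hi, h⟩

/-- three neighbours -/
theorem Pl_deg {p : Lb} (hp : Pl I p) : ∃ n₁ n₂ n₃, ∀ u, adj I p u → u = n₁ ∨ u = n₂ ∨ u = n₃ := by
  have hT := nT_ge (I := I)
  obtain ⟨t, i, rfl, ht, hi, hS⟩ := hp
  by_cases h0 : t = 0
  · subst h0
    refine ⟨if i = 2 then Sum.inr (Sum.inl 0) else if i = 0 then Sum.inl (1, 1)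
        else Sum.inl (nT I - 1, 0),
      if i ≤ 1 then Sum.inl (1, 2) else Sum.inl (nT I - 1, 1),
      if i ≤ 2 then Sum.inl (1, 3) else Sum.inl (nT I - 1, 2), fun u hu => ?_⟩
    rcases adj_first hu with ⟨j, h1, h2, rfl⟩ | ⟨j, h1, h2, rfl⟩ | ⟨h1, rfl⟩
    · interval_cases i <;> interval_cases j <;> simp
    · interval_cases i <;> interval_cases j <;> simp at h2 ⊢
    · subst h1
      simp
  · by_cases h1 : t + 1 = nT I
    · have h2 : t = nT I - 1 := by omega
      subst h2
      refine ⟨if i = 0 then Sum.inl (8, 2) else Sum.inl (nT I - 2, 0),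
        if i = 0 then Sum.inl (0, 1) else if i = 1 then Sum.inl (0, 2) else Sum.inl (nT I - 2, 1),
        if i ≤ 2 then Sum.inl (0, 3) else Sum.inl (nT I - 2, 2), fun u hu => ?_⟩
      rcases adj_last hu with ⟨j, h3, h4, h5, rfl⟩ | ⟨j, h3, rfl⟩ | ⟨h3, rfl⟩
      · interval_cases i <;> interval_cases j <;> simp at h5 ⊢
      · interval_cases i <;> interval_cases j <;> simp
      · subst h3
        simp
    · refine ⟨if i = 0 then Sum.inl (t + 1, 1) else Sum.inl (t - 1, 0),
        if i ≤ 1 then Sum.inl (t + 1, 2) else Sum.inl (t - 1, 1),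
        if i ≤ 2 then Sum.inl (t + 1, 3) else Sum.inl (t - 1, 2), fun u hu => ?_⟩
      rcases adj_mid (by omega) (by omega) hS hu with ⟨j, h3, h4, rfl⟩ | ⟨j, h3, rfl⟩
      · interval_cases i <;> interval_cases j <;> simp
      · interval_cases i <;> interval_cases j <;> simp

/-- the hub -/
def hub : Lb := Sum.inl (2, 0)

theorem not_Sx {t i : ℕ} (h : t < 8) : ¬ Sx I t i := fun h' => by
  have := Sx_bd h'
  omega

theorem adj_hub {v : Lb} : adj I hub v ↔ v = Sum.inl (3, 1) ∨ v = Sum.inl (3, 2) ∨ v = Sum.inl (3, 3) := by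
  have hT := nT_ge (I := I)
  constructor
  · intro h
    rcases adj_mid (t := 2) (by omega) (by omega) (not_Sx (by omega)) h with ⟨j, h3, h4, rfl⟩ | ⟨j, h3, rfl⟩
    · interval_cases j <;> simp
    · omega
  · rintro (rfl | rfl | rfl)
    · exact adj_chain (by omega) (by omega) (by omega)
    · exact adj_chain (by omega) (by omega) (by omega)
    · exact adj_chain (by omega) (by omega) (by omega)

/-- sweep for a set of labels -/
theorem sweep (R : Lb → Prop) (h30 : R (Sum.inl (3, 0))) (h43 : R (Sum.inl (4, 3)))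
    (hcl : ∀ u v, R u → adj I u v → Pl I v → v ≠ hub → ¬ adj I hub v → R v) {v : Lb}
    (hv : Pl I v) (hv' : v ≠ hub) (hv2 : ¬ adj I hub v) : R v := by
  have hT := nT_ge (I := I)
  have cl : ∀ u t i, R u → adj I u (Sum.inl (t, i)) →
      (¬ Sx I t i ∧ ¬ (t = 2 ∧ i = 0) ∧ ¬ (t = 3 ∧ 1 ≤ i)) → R (Sum.inl (t, i)) := by
    rintro u t i h1 h2 ⟨h3, h4, h5⟩
    have h6 := (mem_chain I).1 h2.2.1
    refine hcl _ _ h1 h2 (Pl_mk h6.1 h6.2 h3) ?_ ?_
    · intro h
      simp only [hub, Sum.inl.injEq, Prod.mk.injEq] at h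
      exact h4 h
    · rw [adj_hub]
      simp only [Sum.inl.injEq, Prod.mk.injEq]
      omega
  obtain ⟨t, i, rfl, ht, hi, hS⟩ := hv
  refine T5b.sweep_abs (nT I) hT (Sx I) (fun t i => Sx_bd) (fun t i t' i' => Sx_one)
    (fun t i => ¬ Sx I t i ∧ ¬ (t = 2 ∧ i = 0) ∧ ¬ (t = 3 ∧ 1 ≤ i)) (fun t i => Iff.rfl)
    (fun t i => R (Sum.inl (t, i))) h30 h43 ?_ ?_ ?_ ?_ t ht i hi ?_
  · intro t i j h1 h2 h3 h4 h5
    exact cl _ _ _ h4 (adj_chain h1 h2 h3) h5
  · intro t i j h1 h2 h3 h4 h5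
    exact cl _ _ _ h4 (adj_symm (adj_chain h1 h2 h3)) h5
  · intro i j h1 h2 h3 h4 h5
    exact cl _ _ _ h4 (adj_wrap h1 h2 h3) h5
  · intro i j h1 h2 h3 h4 h5
    exact cl _ _ _ h4 (adj_symm (adj_wrap h1 h2 h3)) h5
  · refine ⟨hS, ?_, ?_⟩
    · rintro ⟨rfl, rfl⟩
      exact hv' rfl
    · rintro ⟨rfl, h⟩
      apply hv2
      rw [adj_hub]
      simp only [Sum.inl.injEq, Prod.mk.injEq, true_and]
      omega

theorem Pl_hub : Pl I hub := Pl_mk (by have := nT_ge (I := I); omega) (by omega) (not_Sx (by omega))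

theorem Pl_small {t i : ℕ} (ht : t < 8) (hi : i < 4) : Pl I (Sum.inl (t, i)) :=
  Pl_mk (by have := nT_ge (I := I); omega) hi (not_Sx ht)

/-- connectivity -/
theorem hconn (p : Lb) (hp : Pl I p) :
    Relation.ReflTransGen (fun p q => adj I p q ∧ Pl I p ∧ Pl I q) p hub := by
  have hT := nT_ge (I := I)
  have n1 : ∀ v, adj I hub v → Pl I v ∧
      Relation.ReflTransGen (fun p q => adj I p q ∧ Pl I p ∧ Pl I q) v hub := by
    intro v hv
    have : Pl I v := by
      rcases adj_hub.1 hv with rfl | rfl | rfl <;> exact Pl_small (by omega) (by omega)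
    exact ⟨this, Relation.ReflTransGen.single ⟨adj_symm hv, this, Pl_hub⟩⟩
  by_cases h1 : p = hub
  · subst h1
    exact Relation.ReflTransGen.refl
  by_cases h2 : adj I hub p
  · exact (n1 p h2).2
  have h43 : Pl I (Sum.inl (4, 3)) ∧ Relation.ReflTransGen
      (fun p q => adj I p q ∧ Pl I p ∧ Pl I q) (Sum.inl (4, 3)) hub := by
    have h := n1 (Sum.inl (3, 1)) (adj_hub.2 (Or.inl rfl))
    have h' : Pl I (Sum.inl (4, 3)) := Pl_small (by omega) (by omega)
    exact ⟨h', h.2.head ⟨adj_symm (adj_chain (by omega) (by omega) (by omega)), h', h.1⟩⟩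
  refine (sweep (I := I) (fun v => Pl I v ∧ Relation.ReflTransGen
    (fun p q => adj I p q ∧ Pl I p ∧ Pl I q) v hub) ?_ h43 ?_ hp h1 h2).2
  · have h' : Pl I (Sum.inl (3, 0)) := Pl_small (by omega) (by omega)
    exact ⟨h', h43.2.head ⟨adj_chain (by omega) (by omega) (by omega), h', h43.1⟩⟩
  · intro u v hu huv hv _ _
    exact ⟨hv, hu.2.head ⟨adj_symm huv, hv, hu.1⟩⟩

/-- levels -/
def Lev (I : NC) (a b : Lb) : ℕ → Lb → Prop
  | 0, v => Pl I v ∧ v ≠ hub ∧ v ≠ a ∧ v ≠ b ∧ (adj I hub v ∨ (adj I v a ∧ adj I v b))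
  | n + 1, v => Pl I v ∧ v ≠ hub ∧ v ≠ a ∧ v ≠ b ∧ ∃ u, Lev I a b n u ∧ adj I v u

theorem Lev_basic {a b : Lb} {n : ℕ} {v : Lb} (h : Lev I a b n v) :
    Pl I v ∧ v ≠ hub ∧ v ≠ a ∧ v ≠ b := by
  cases n with
  | zero => exact ⟨h.1, h.2.1, h.2.2.1, h.2.2.2.1⟩
  | succ n => exact ⟨h.1, h.2.1, h.2.2.1, h.2.2.2.1⟩

theorem exists_Lev {a b : Lb} (ha : adj I hub a) (hb : adj I hub b) (hab : a ≠ b) {v : Lb}
    (hv : Pl I v) (h1 : v ≠ hub) (h2 : v ≠ a) (h3 : v ≠ b) : ∃ n, Lev I a b n v := by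
  have hT := nT_ge (I := I)
  by_cases h4 : adj I hub v
  · exact ⟨0, hv, h1, h2, h3, Or.inl h4⟩
  have cl : ∀ u v, (∃ n, Lev I a b n u) → adj I u v → Pl I v → v ≠ hub → ¬ adj I hub v →
      ∃ n, Lev I a b n v := by
    rintro u v ⟨n, hn⟩ h5 h6 h7 h8
    exact ⟨n + 1, h6, h7, fun h => h8 (h ▸ ha), fun h => h8 (h ▸ hb), u, hn, adj_symm h5⟩
  have a31 : adj I (Sum.inl (3, 1)) (Sum.inl (4, 3)) := adj_chain (by omega) (by omega) (by omega)
  have a32 : adj I (Sum.inl (3, 2)) (Sum.inl (4, 3)) := adj_chain (by omega) (by omega) (by omega)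
  have p43 : Pl I (Sum.inl (4, 3)) := Pl_small (by omega) (by omega)
  have n43 : (Sum.inl (4, 3) : Lb) ≠ hub := by simp [hub]
  have m43 : ¬ adj I hub (Sum.inl (4, 3)) := by rw [adj_hub]; simp
  have h43 : ∃ n, Lev I a b n (Sum.inl (4, 3)) := by
    have mk : ∀ v, adj I hub v → adj I v (Sum.inl (4, 3)) → v ≠ a → v ≠ b →
        ∃ n, Lev I a b n (Sum.inl (4, 3)) := by
      intro v h5 h6 h7 h8
      have h9 : v ≠ hub := by
        rintro rfl
        exact adj_irrefl _ h5
      have h10 : Pl I v := by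
        rcases adj_hub.1 h5 with rfl | rfl | rfl <;> exact Pl_small (by omega) (by omega)
      exact cl _ _ ⟨0, h10, h9, h7, h8, Or.inl h5⟩ h6 p43 n43 m43
    by_cases e1 : (Sum.inl (3, 1) : Lb) = a ∨ (Sum.inl (3, 1) : Lb) = b
    · by_cases e2 : (Sum.inl (3, 2) : Lb) = a ∨ (Sum.inl (3, 2) : Lb) = b
      · refine ⟨0, p43, n43, fun h => m43 (h ▸ ha), fun h => m43 (h ▸ hb), Or.inr ?_⟩
        rcases e1 with rfl | rfl <;> rcases e2 with e2 | e2
        · simp at e2
        · rw [← e2]; exact ⟨adj_symm a31, adj_symm a32⟩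
        · rw [← e2]; exact ⟨adj_symm a32, adj_symm a31⟩
        · simp at e2
      · rw [not_or] at e2
        exact mk _ (adj_hub.2 (Or.inr (Or.inl rfl))) a32 e2.1 e2.2
    · rw [not_or] at e1
      exact mk _ (adj_hub.2 (Or.inl rfl)) a31 e1.1 e1.2
  have h30 : ∃ n, Lev I a b n (Sum.inl (3, 0)) :=
    cl _ _ h43 (adj_symm (adj_chain (by omega) (by omega) (by omega)))
      (Pl_small (by omega) (by omega)) (by simp [hub]) (by rw [adj_hub]; simp)
  exact sweep (I := I) (fun v => ∃ n, Lev I a b n v) h30 h43 cl hv h1 h4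

open Classical in
/-- the rank -/
noncomputable def rkO (I : NC) (a b : Lb) (B : ℕ) (D : Lb → ℕ) (v : Lb) : ℕ :=
  if v = a then 0 else
    match v with
    | Sum.inl (t, i) => if Sx I t i then 3 else B - D (Sum.inl (t, i)) + 4
    | Sum.inr (Sum.inl _) => 1
    | Sum.inr (Sum.inr _) => 2

theorem slot_inj {u u' : ℕ ⊕ (ℕ × ℕ)} (hu : (Sum.inr u : Lb) ∈ verts I)
    (hu' : (Sum.inr u' : Lb) ∈ verts I) {c : ℕ} (hc : c < 4) (h : slot I u c = slot I u' c) :
    u = u' := by
  have h1 : pos I u = pos I u' := by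
    unfold slot at h
    cases h2 : sideM u <;> cases h3 : sideM u' <;> simp only [h2, h3, cond_false, cond_true] at h <;>
      omega
  rcases u with x | ⟨e, j⟩ <;> rcases u' with x' | ⟨e', j'⟩
  · simp only [pos] at h1
    rw [h1]
  · rw [mem_var] at hu
    simp only [pos] at h1
    omega
  · rw [mem_var] at hu'
    simp only [pos] at h1
    omega
  · rw [mem_wire] at hu hu'
    simp only [pos] at h1
    have h2 : e = e' := by omega
    have h3 : j = j' := by omega
    rw [h2, h3]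

/-- the degeneracy order -/
theorem hord {a b : Lb} (ha : adj I hub a) (hb : adj I hub b) (hab : a ≠ b) :
    ∃ rk : Lb → ℕ, ∀ v, ∃ n₁ n₂, ∀ u,
      Mrg (adj I) hub a b v u → rk u ≤ rk v → u = n₁ ∨ u = n₂ := by
  classical
  have hT := nT_ge (I := I)
  set D : Lb → ℕ := fun v => if h : ∃ n, Lev I a b n v then Nat.find h else 0 with hD
  set B : ℕ := (verts I).toFinset.sup D with hB
  have hDB : ∀ v ∈ verts I, D v ≤ B := fun v hv => Finset.le_sup (List.mem_toFinset.2 hv)
  have hcol : ∀ v, adj I hub v → ∀ u, adj I u v → ∃ t i, u = Sum.inl (t, i) ∧ (t = 2 ∨ t = 4) := by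
    intro v hv u hu
    have key : ∀ i : ℕ, adj I (Sum.inl (3, i)) u → ∃ t i, u = Sum.inl (t, i) ∧ (t = 2 ∨ t = 4) := by
      intro i h
      rcases adj_mid (t := 3) (by omega) (by omega) (not_Sx (by omega)) h with
        ⟨j, -, -, rfl⟩ | ⟨j, -, rfl⟩
      · exact ⟨4, j, rfl, Or.inr rfl⟩
      · exact ⟨2, j, rfl, Or.inl rfl⟩
    rcases adj_hub.1 hv with rfl | rfl | rfl <;> exact key _ (adj_symm hu)
  refine ⟨rkO I a b B D, fun v => ?_⟩
  by_cases hva : v = a
  · subst hva
    refine ⟨v, v, fun u _ h2 => Or.inl ?_⟩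
    by_contra h3
    simp only [rkO, if_true, if_neg h3] at h2
    rcases u with ⟨t, i⟩ | x | y
    · simp only at h2
      split_ifs at h2 <;> omega
    · simp only at h2
      omega
    · simp only at h2
      omega
  have rk1 : ∀ v : Lb, v ≠ a → rkO I a b B D v = (match v with
    | Sum.inl (t, i) => if Sx I t i then 3 else B - D (Sum.inl (t, i)) + 4
    | Sum.inr (Sum.inl _) => 1
    | Sum.inr (Sum.inr _) => 2) := fun v hv => if_neg hv
  rcases v with ⟨t, i⟩ | x | ⟨e, j⟩
  · -- chain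
    by_cases hS : Sx I t i
    · -- attached vertices
      by_cases hex : ∃ u', (Sum.inr u' : Lb) ∈ verts I ∧ i < 4 ∧ t = slot I u' i
      · obtain ⟨u', hu', hi4, htu⟩ := hex
        refine ⟨Sum.inr u', Sum.inr u', fun u hu hr => Or.inl ?_⟩
        obtain ⟨h1, h2, h3, h4, h5⟩ := hu
        have hbd := Sx_bd hS
        have hua : u ≠ a := by
          rintro rfl
          rcases h5 with h5 | ⟨h5, -⟩ | ⟨-, h5⟩
          · obtain ⟨t', i', h6, h7⟩ := hcol _ ha _ h5
            simp only [Sum.inl.injEq, Prod.mk.injEq] at h6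
            omega
          · exact hva h5
          · obtain ⟨t', i', h6, h7⟩ := hcol _ hb _ h5
            simp only [Sum.inl.injEq, Prod.mk.injEq] at h6
            omega
        have h6 : adj I (Sum.inl (t, i)) u := by
          rcases h5 with h5 | ⟨h5, -⟩ | ⟨h5, -⟩
          · exact h5
          · exact absurd h5 hva
          · exact absurd h5 hua
        rw [rk1 _ hva, rk1 _ hua] at hr
        simp only [if_pos hS] at hr
        rcases u with ⟨s, k⟩ | u
        · simp only at hr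
          have hSs : Sx I s k := by
            by_contra h7
            rw [if_neg h7] at hr
            omega
          exfalso
          have hbd' := Sx_bd hSs
          rcases adj_inl h6 with ⟨j, h7, -, -, h8⟩ | ⟨s', j, h7, h8, h9, -, h10⟩ | ⟨h7, -⟩ |
            ⟨h7, h8, h9⟩ | ⟨u, -, -, h8⟩ | ⟨h7, -⟩
          · simp only [Sum.inl.injEq, Prod.mk.injEq] at h8
            have : nx I t = t + 1 := by unfold nx; rw [if_neg (by omega)]
            have := Sx_one hS hSs (by omega) (by omega)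
            omega
          · simp only [Sum.inl.injEq, Prod.mk.injEq] at h10
            rcases nx_eq h8 h9 with h11 | h11
            · omega
            · have := Sx_one hSs hS (by omega) (by omega)
              omega
          · omega
          · simp only [Sum.inl.injEq, Prod.mk.injEq] at h9
            omega
          · simp at h8
          · omega
        · rcases adj_inl h6 with ⟨j, -, -, -, h8⟩ | ⟨s', j, -, -, -, -, h10⟩ | ⟨-, -, h7⟩ |
            ⟨-, -, h9⟩ | ⟨u₁, h7, -, h8⟩ | ⟨h7, -⟩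
          · simp at h8
          · simp at h10
          · simp at h7
          · simp at h9
          · have h9 : u = u₁ := by simpa using h8
            subst h9
            rw [slot_inj h6.2.1 hu' hi4 (by rw [← h7, ← htu])]
          · omega
      · refine ⟨a, a, fun u hu hr => ?_⟩
        exfalso
        obtain ⟨h1, h2, h3, h4, h5⟩ := hu
        have hbd := Sx_bd hS
        have hua : u ≠ a := by
          rintro rfl
          rcases h5 with h5 | ⟨h5, -⟩ | ⟨-, h5⟩
          · obtain ⟨t', i', h6, h7⟩ := hcol _ ha _ h5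
            simp only [Sum.inl.injEq, Prod.mk.injEq] at h6
            omega
          · exact hva h5
          · obtain ⟨t', i', h6, h7⟩ := hcol _ hb _ h5
            simp only [Sum.inl.injEq, Prod.mk.injEq] at h6
            omega
        have h6 : adj I (Sum.inl (t, i)) u := by
          rcases h5 with h5 | ⟨h5, -⟩ | ⟨h5, -⟩
          · exact h5
          · exact absurd h5 hva
          · exact absurd h5 hua
        rw [rk1 _ hva, rk1 _ hua] at hr
        simp only [if_pos hS] at hr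
        rcases u with ⟨s, k⟩ | u
        · simp only at hr
          have hSs : Sx I s k := by
            by_contra h7
            rw [if_neg h7] at hr
            omega
          have hbd' := Sx_bd hSs
          rcases adj_inl h6 with ⟨j, h7, -, -, h8⟩ | ⟨s', j, h7, h8, h9, -, h10⟩ | ⟨h7, -⟩ |
            ⟨h7, h8, h9⟩ | ⟨u, -, -, h8⟩ | ⟨h7, -⟩
          · simp only [Sum.inl.injEq, Prod.mk.injEq] at h8
            have : nx I t = t + 1 := by unfold nx; rw [if_neg (by omega)]
            have := Sx_one hS hSs (by omega) (by omega)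
            omega
          · simp only [Sum.inl.injEq, Prod.mk.injEq] at h10
            rcases nx_eq h8 h9 with h11 | h11
            · omega
            · have := Sx_one hSs hS (by omega) (by omega)
              omega
          · omega
          · simp only [Sum.inl.injEq, Prod.mk.injEq] at h9
            omega
          · simp at h8
          · omega
        · have h11 := (mem_chain I).1 h6.1
          rcases adj_inl h6 with ⟨j, -, -, -, h8⟩ | ⟨s', j, -, -, -, -, h10⟩ | ⟨-, -, h7⟩ |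
            ⟨-, -, h9⟩ | ⟨u₁, h7, -, h8⟩ | ⟨h7, -⟩
          · simp at h8
          · simp at h10
          · simp at h7
          · simp at h9
          · have h9 : u = u₁ := by simpa using h8
            subst h9
            exact hex ⟨u, h6.2.1, h11.2, h7⟩
          · omega
    · -- plain vertices
      by_cases hmem : t < nT I ∧ i < 4
      swap
      · refine ⟨a, a, fun u hu hr => ?_⟩
        obtain ⟨h1, h2, h3, h4, h5⟩ := hu
        rcases h5 with h5 | ⟨h5, -⟩ | ⟨h5, -⟩
        · exact absurd ((mem_chain I).1 h5.1) hmem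
        · exact absurd h5 hva
        · exact Or.inl h5
      have hPl : Pl I (Sum.inl (t, i)) := Pl_mk hmem.1 hmem.2 hS
      by_cases hvw : (Sum.inl (t, i) : Lb) = hub
      · exact ⟨a, a, fun u hu _ => absurd hvw hu.1⟩
      by_cases hvb : (Sum.inl (t, i) : Lb) = b
      · exact ⟨a, a, fun u hu _ => absurd hvb hu.2.1⟩
      obtain ⟨n₁, n₂, n₃, hn⟩ := Pl_deg hPl
      set π : Lb → Lb := fun u => if u = b then a else u with hπ
      have cand : ∀ u, Mrg (adj I) hub a b (Sum.inl (t, i)) u → ∃ u', adj I (Sum.inl (t, i)) u' ∧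
          u = π u' ∧ u' ≠ hub := by
        rintro u ⟨h1, h2, h3, h4, h5⟩
        rcases h5 with h5 | ⟨h5, -⟩ | ⟨h5, h6⟩
        · exact ⟨u, h5, by simp only [hπ, if_neg h4], h3⟩
        · exact absurd h5 hva
        · refine ⟨b, h6, by simp only [hπ, if_true, h5], ?_⟩
          rintro rfl
          exact adj_irrefl _ hb
      -- drop one of the candidates
      have drop : ∀ q, adj I (Sum.inl (t, i)) q →
          (∀ u u', Mrg (adj I) hub a b (Sum.inl (t, i)) u →
            rkO I a b B D u ≤ rkO I a b B D (Sum.inl (t, i)) →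
            adj I (Sum.inl (t, i)) u' → u' ≠ hub → u = π u' → ∃ u'', u'' ≠ q ∧
              adj I (Sum.inl (t, i)) u'' ∧ u = π u'') →
          ∃ m₁ m₂, ∀ u, Mrg (adj I) hub a b (Sum.inl (t, i)) u →
            rkO I a b B D u ≤ rkO I a b B D (Sum.inl (t, i)) → u = m₁ ∨ u = m₂ := by
        intro q hq hdrop
        have h1 : ∀ u, Mrg (adj I) hub a b (Sum.inl (t, i)) u →
            rkO I a b B D u ≤ rkO I a b B D (Sum.inl (t, i)) →
            ∃ u'', u'' ≠ q ∧ adj I (Sum.inl (t, i)) u'' ∧ u = π u'' := by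
          intro u hu hr
          obtain ⟨u', h2, h3, h4⟩ := cand u hu
          exact hdrop u u' hu hr h2 h4 h3
        rcases hn q hq with rfl | rfl | rfl
        · refine ⟨π n₂, π n₃, fun u hu hr => ?_⟩
          obtain ⟨u'', h2, h3, rfl⟩ := h1 u hu hr
          rcases hn _ h3 with rfl | rfl | rfl
          · exact absurd rfl h2
          · exact Or.inl rfl
          · exact Or.inr rfl
        · refine ⟨π n₁, π n₃, fun u hu hr => ?_⟩
          obtain ⟨u'', h2, h3, rfl⟩ := h1 u hu hr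
          rcases hn _ h3 with rfl | rfl | rfl
          · exact Or.inl rfl
          · exact absurd rfl h2
          · exact Or.inr rfl
        · refine ⟨π n₁, π n₂, fun u hu hr => ?_⟩
          obtain ⟨u'', h2, h3, rfl⟩ := h1 u hu hr
          rcases hn _ h3 with rfl | rfl | rfl
          · exact Or.inl rfl
          · exact Or.inr rfl
          · exact absurd rfl h2
      by_cases hadj : adj I hub (Sum.inl (t, i))
      · refine drop hub (adj_symm hadj) ?_
        intro u u' _ _ h3 h4 h5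
        exact ⟨u', h4, h3, h5⟩
      by_cases hboth : adj I (Sum.inl (t, i)) a ∧ adj I (Sum.inl (t, i)) b
      · refine drop b hboth.2 ?_
        intro u u' _ _ h3 h4 h5
        by_cases h6 : u' = b
        · refine ⟨a, hab, hboth.1, ?_⟩
          rw [h5, h6]
          simp only [hπ, if_true, if_neg hab]
        · exact ⟨u', h6, h3, h5⟩
      · -- a neighbour of larger rank
        have hex := exists_Lev ha hb hab hPl hvw hva hvb
        have hDv : D (Sum.inl (t, i)) = Nat.find hex := by simp only [hD, dif_pos hex]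
        have hspec := Nat.find_spec hex
        have hpos : Nat.find hex ≠ 0 := by
          intro h0
          rw [h0] at hspec
          rcases hspec.2.2.2.2 with h | h
          · exact hadj h
          · exact hboth h
        obtain ⟨n, hn'⟩ := Nat.exists_eq_succ_of_ne_zero hpos
        rw [hn'] at hspec
        obtain ⟨-, -, -, -, q, hq1, hq2⟩ := hspec
        have hqb := Lev_basic hq1
        have hDq : D q < D (Sum.inl (t, i)) := by
          have hexq : ∃ n, Lev I a b n q := ⟨n, hq1⟩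
          have h1 : D q = Nat.find hexq := by simp only [hD, dif_pos hexq]
          have h2 := Nat.find_min' hexq hq1
          omega
        have hDvB := hDB _ ((mem_chain I).2 hmem)
        have hrk : rkO I a b B D (Sum.inl (t, i)) < rkO I a b B D q := by
          rw [rk1 _ hva, rk1 _ hqb.2.2.1]
          obtain ⟨t', i', rfl, -, -, hS'⟩ := hqb.1
          simp only [if_neg hS, if_neg hS']
          omega
        refine drop q hq2 ?_
        intro u u' _ h2 h3 h4 h5
        refine ⟨u', ?_, h3, h5⟩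
        rintro rfl
        have h6 : u = u' := by rw [h5]; simp only [hπ, if_neg hqb.2.2.2]
        rw [h6] at h2
        omega
  · -- variables
    refine ⟨a, a, fun u hu hr => Or.inl ?_⟩
    by_contra hua
    obtain ⟨h1, h2, h3, h4, h5⟩ := hu
    have h6 : adj I (Sum.inr (Sum.inl x)) u := by
      rcases h5 with h5 | ⟨h5, -⟩ | ⟨h5, -⟩
      · exact h5
      · exact absurd h5 hva
      · exact absurd h5 hua
    rw [rk1 _ hva, rk1 _ hua] at hr
    rcases u with ⟨s, k⟩ | y | y
    · simp only at hr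
      split_ifs at hr <;> omega
    · rcases adj_inr h6 with ⟨e, j, h7, -⟩ | ⟨e, j, h7, -⟩
      · simp at h7
      · simp at h7
    · simp only at hr
      omega
  · -- wires
    refine ⟨if j = 0 then Sum.inr (Sum.inl (wr I e).1.1) else Sum.inr (Sum.inr (e, j - 1)),
      if j = 4 then Sum.inr (Sum.inl (wr I e).2.1) else Sum.inr (Sum.inr (e, j + 1)),
      fun u hu hr => ?_⟩
    obtain ⟨h1, h2, h3, h4, h5⟩ := hu
    have hua : u ≠ a := by
      rintro rfl
      rcases h5 with h5 | ⟨h5, -⟩ | ⟨-, h5⟩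
      · obtain ⟨t', i', h6, h7⟩ := hcol _ ha _ h5
        simp at h6
      · exact hva h5
      · obtain ⟨t', i', h6, h7⟩ := hcol _ hb _ h5
        simp at h6
    have h6 : adj I (Sum.inr (Sum.inr (e, j))) u := by
      rcases h5 with h5 | ⟨h5, -⟩ | ⟨h5, -⟩
      · exact h5
      · exact absurd h5 hva
      · exact absurd h5 hua
    rw [rk1 _ hva, rk1 _ hua] at hr
    rcases u with ⟨s, k⟩ | u
    · simp only at hr
      split_ifs at hr <;> omega
    · have hej := (mem_wire I).1 h6.1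
      rcases adj_inr h6 with ⟨e', j', h7, h8⟩ | ⟨e', j', h7, h8⟩
      · rcases h8 with ⟨-, h8⟩ | ⟨-, h8⟩ | ⟨i', h8, h9⟩
        · simp at h8
        · simp at h8
        · simp only [Sum.inr.injEq, Prod.mk.injEq] at h8
          obtain ⟨rfl, rfl⟩ := h8
          subst h7
          subst h9
          have := (mem_wire I).1 h6.2.1
          right
          rw [if_neg (by omega)]
      · simp only [Sum.inr.injEq, Prod.mk.injEq] at h7
        obtain ⟨rfl, rfl⟩ := h7
        rcases h8 with ⟨h9, h8⟩ | ⟨h9, h8⟩ | ⟨i', h8, h9⟩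
        · left
          rw [if_pos h9, h8]
        · right
          rw [if_pos h9, h8]
        · left
          rw [if_neg (by omega), h8, h9]
          simp

end Pool.Agent.NPC.Mix
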