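import Pool.Agent.H679R2.Mix.Nbr

/-!
# Wires: decoding of colourings
-/

namespace Pool.Agent.NPC.Mix

/-- colours from numbers -/
def q4 (n : ℕ) : Fin 4 := Fin.ofNat 4 n

theorem q4_val {n : ℕ} (h : n < 4) : (q4 n).val = n := Nat.mod_eq_of_lt h

theorem q4_of_val (c : Fin 4) : q4 c.val = c := Fin.ext (q4_val c.isLt)

theorem q4_inj {m n : ℕ} (hm : m < 4) (hn : n < 4) : q4 m = q4 n ↔ m = n := by
  constructor
  · intro h
    have := congrArg Fin.val h
    rwa [q4_val hm, q4_val hn] at this
  · intro h
    rw [h]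

/-- left values -/
def lv (a b j : ℕ) : ℕ :=
  if j = 0 then a else if j = 1 then 3 else if j = 2 then gam a b else if j = 3 then del a b else 3

/-- right values -/
def rv (a b j : ℕ) : ℕ :=
  if j = 0 then 3 else if j = 1 then gam a b else if j = 2 then del a b else if j = 3 then 3 else b

theorem gam_le {a b : ℕ} (hb : b ≤ 2) : gam a b ≤ 2 := by unfold gam; split_ifs <;> omega

theorem del_le {a b : ℕ} (ha : a ≤ 2) : del a b ≤ 2 := by unfold del; split_ifs <;> omega

theorem gam_ne {a b : ℕ} (ha : a ≤ 2) : gam a b ≠ a := by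
  unfold gam; split_ifs <;> omega

theorem del_ne {a b : ℕ} (hb : b ≤ 2) : del a b ≠ b := by
  unfold del; split_ifs <;> omega

theorem gam_ne_del {a b : ℕ} : gam a b ≠ del a b := by
  unfold gam del
  split_ifs with h
  · omega
  · exact fun h' => h h'.symm

theorem lv_le {a b : ℕ} (ha : a ≤ 2) (hb : b ≤ 2) (j : ℕ) : lv a b j < 4 := by
  have h1 := gam_le (a := a) hb
  have h2 := del_le (b := b) ha
  unfold lv
  split_ifs <;> omega

theorem rv_le {a b : ℕ} (ha : a ≤ 2) (hb : b ≤ 2) (j : ℕ) : rv a b j < 4 := by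
  have h1 := gam_le (a := a) hb
  have h2 := del_le (b := b) ha
  unfold rv
  split_ifs <;> omega

variable (I : NC)

/-- the numbers of the colours of a configuration -/
def coln (f : ℕ → ℕ) (ι : ℕ → ℕ) : Lb → ℕ
  | Sum.inl (_, i) => i
  | Sum.inr (Sum.inl x) => f x
  | Sum.inr (Sum.inr (e, j)) =>
    if j < ι e then lv (wr I e).1.2 (wr I e).2.2 j else rv (wr I e).1.2 (wr I e).2.2 j

/-- the colouring of a configuration -/
def col (f : ℕ → ℕ) (ι : ℕ → ℕ) (a : Lb) : Fin 4 := q4 (coln I f ι a)

/-- compatible states of the wires -/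
def Wok (f : ℕ → ℕ) (ι : ℕ → ℕ) : Prop :=
  ∀ e < nw I, ι e ≤ 5 ∧ (f (wr I e).1.1 = (wr I e).1.2 → ι e = 0) ∧
    (f (wr I e).2.1 = (wr I e).2.2 → ι e = 5)

variable {I}

theorem wr_mem {e : ℕ} (he : e < nw I) : wr I e ∈ I.2 := by
  unfold wr
  rw [List.getD_eq_getElem _ _ he]
  exact List.getElem_mem _

theorem exists_wr {w : (ℕ × ℕ) × (ℕ × ℕ)} (hw : w ∈ I.2) : ∃ e < nw I, wr I e = w := by
  obtain ⟨e, he, h⟩ := List.getElem_of_mem hw
  exact ⟨e, he, by unfold wr; rw [List.getD_eq_getElem _ _ he, h]⟩

theorem coln_lt (hok : I.Ok) {f : ℕ → ℕ} (hf : ∀ x, f x ≤ 2) {ι : ℕ → ℕ} {a : Lb}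
    (ha : a ∈ verts I) : coln I f ι a < 4 := by
  rcases a with ⟨t, i⟩ | x | ⟨e, j⟩
  · rw [mem_chain] at ha
    exact ha.2
  · have := hf x
    simp only [coln]
    omega
  · rw [mem_wire] at ha
    obtain ⟨-, -, -, h1, h2⟩ := hok.2 _ (wr_mem ha.1)
    simp only [coln]
    split_ifs
    · exact lv_le h1 h2 _
    · exact rv_le h1 h2 _

theorem lst_coln (hok : I.Ok) {f : ℕ → ℕ} (hf : I.csp.Sol f) {ι : ℕ → ℕ}
    {u : ℕ ⊕ (ℕ × ℕ)} (hu : (Sum.inr u : Lb) ∈ verts I) : lst I u (coln I f ι (Sum.inr u)) = true := by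
  rcases u with x | ⟨e, j⟩
  · simp only [coln, lst]
    have h1 := hf.1 x
    have h2 := hf.2.1 x
    change I.1.getD x true = true → f x ≤ 1 at h2
    by_cases h : I.1.getD x true = true
    · simp only [h, Bool.not_true, Bool.and_false, Bool.or_false, decide_eq_true_eq]
      have := h2 h
      omega
    · rw [Bool.not_eq_true] at h
      simp only [h, Bool.not_false, Bool.and_true, Bool.or_eq_true, decide_eq_true_eq]
      omega
  · rw [mem_wire] at hu
    have hj := hu.2
    simp only [coln, lst]
    split_ifs with h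
    · interval_cases j <;> simp [lv]
    · interval_cases j <;> simp [rv]

/-- A configuration gives a proper colouring. -/
theorem prp_col (hok : I.Ok) {f : ℕ → ℕ} (hf : I.csp.Sol f) {ι : ℕ → ℕ} (hι : Wok I f ι) :
    Prp (adj I) (col I f ι) := by
  have key : ∀ a b, a ∈ verts I → b ∈ verts I → arc I a b = true →
      coln I f ι a ≠ coln I f ι b := by
    intro a b ha hb h
    rcases a with ⟨t, i⟩ | x | ⟨e, j⟩ <;> rcases b with ⟨s, k⟩ | y | ⟨e', j'⟩ <;>
      simp only [arc, Bool.or_self, Bool.false_eq_true, Bool.or_eq_true, Bool.and_eq_true,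
        decide_eq_true_eq, Bool.or_false, Bool.false_or, or_false, false_or, Bool.not_eq_true',
        Bool.and_eq_false_imp, decide_eq_false_iff_not] at h
    · simp only [coln]
      rcases h with ⟨⟨h4, h5⟩, h6⟩ | ⟨⟨⟨h4, h5⟩, h6⟩, h7⟩ <;> omega
    · rcases h with ⟨h4, h5⟩ | ⟨⟨h4, h5⟩, h6⟩
      · intro h7
        have h8 := lst_coln hok hf (ι := ι) hb
        rw [← h7] at h8
        simp only [coln] at h8
        rw [h8] at h5
        exact Bool.noConfusion h5
      · have h7 := hf.2.1 y
        have h8 : I.csp.two y = true := by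
          change I.1.getD y true = true
          have h9 : y = 0 := by simpa using h6
          rw [h9, List.getD_eq_getElem?_getD, hok.1]
          rfl
        simp only [coln]
        have := h7 h8
        omega
    · rcases h with ⟨h4, h5⟩ | ⟨⟨h4, h5⟩, h6⟩
      · intro h7
        have h8 := lst_coln hok hf (ι := ι) hb
        rw [← h7] at h8
        simp only [coln] at h8
        rw [h8] at h5
        exact Bool.noConfusion h5
      · exact absurd h6 (by simp)
    · rw [mem_wire] at hb
      obtain ⟨h1, h2, h3⟩ := hι _ hb.1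
      obtain ⟨-, -, -, h8, h9⟩ := hok.2 _ (wr_mem hb.1)
      have h10 := hf.1 x
      simp only [coln]
      rcases h with ⟨h4, h5⟩ | ⟨h4, h5⟩
      · subst h4
        by_cases h6 : f x = (wr I e').1.2
        · have h7 := h2 (by rw [← h5]; exact h6)
          simp only [h7, lt_irrefl, if_false, rv, if_true]
          omega
        · split_ifs with h7
          · simpa [lv] using h6
          · simp only [rv, if_true]
            omega
      · subst h4
        by_cases h6 : f x = (wr I e').2.2
        · have h7 := h3 (by rw [← h5]; exact h6)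
          simp only [h7, lv]
          norm_num
          omega
        · split_ifs with h7
          · simp only [lv]
            norm_num
            omega
          · simpa [rv] using h6
    · obtain ⟨h4, h5⟩ := h
      subst h4
      subst h5
      rw [mem_wire] at ha hb
      obtain ⟨-, -, -, h8, h9⟩ := hok.2 _ (wr_mem hb.1)
      have g1 := gam_le (a := (wr I e).1.2) h9
      have g2 := del_le (b := (wr I e).2.2) h8
      have g3 := gam_ne (b := (wr I e).2.2) h8
      have g4 := del_ne (a := (wr I e).1.2) h9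
      have g5 := gam_ne_del (a := (wr I e).1.2) (b := (wr I e).2.2)
      simp only [coln]
      have hj : j < 4 := by omega
      split_ifs with h6 h7 h7
      · interval_cases j <;> simp only [lv] <;> norm_num <;> omega
      · interval_cases j <;> simp only [lv, rv] <;> norm_num <;> omega
      · omega
      · interval_cases j <;> simp only [rv] <;> norm_num <;> omega
  intro a b h hab
  have ha := coln_lt hok hf.1 (ι := ι) h.1
  have hb := coln_lt hok hf.1 (ι := ι) h.2.1
  have h1 := (q4_inj ha hb).1 hab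
  have h2 := h.2.2
  rw [adb, Bool.or_eq_true] at h2
  rcases h2 with h2 | h2
  · exact key a b h.1 h.2.1 h2 h1
  · exact key b a h.2.1 h.1 h2 h1.symm

end Pool.Agent.NPC.Mix
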